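import Pool.Statements.S00549
import Pool.Agent.Work.MP_f4b644_ag.Fin.H6a
import Pool.Agent.Work.MP_f4b644_ag.Mid.Fat
import Pool.Agent.Work.MP_f4b644_ag.Dag.Small

set_option autoImplicit false
open Pool Pool.MP_f4b644_ag

namespace Pool.Agent.S00549

/-- For complex I×J×K tensors with 1 ≤ I ≤ J ≤ K ≤ (I−1)(J−1), not of shape (3,2p+1,2p+1): tensors of rank at most r are dense exactly when r ≥ ⌈IJK/(I+J+K−2)⌉, i.e. the generic rank is that ceiling. -/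
theorem result :
    ∀ I J K : ℕ, 1 ≤ I → I ≤ J → J ≤ K → K ≤ (I - 1) * (J - 1) →
      (¬ ∃ p : ℕ, I = 3 ∧ J = 2 * p + 1 ∧ K = 2 * p + 1) →
      ∀ r : ℕ,
        (Dense {T : Fin I → Fin J → Fin K → ℂ |
            ∃ a : Fin r → Fin I → ℂ, ∃ b : Fin r → Fin J → ℂ, ∃ c : Fin r → Fin K → ℂ,
              T = fun i j k => ∑ l : Fin r, a l i * b l j * c l k}
          ↔ ⌈((I : ℝ) * J * K) / ((I : ℝ) + J + K - 2)⌉₊ ≤ r) :=
  Pool.Agent.Work.MP_f4b644_ag.Fin.final_of Pool.Agent.Work.MP_f4b644_ag.Dag.H45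
    (Pool.Agent.Work.MP_f4b644_ag.Fin.H6_of Pool.Agent.Work.MP_f4b644_ag.Mid.root_B
      Pool.Agent.Work.MP_f4b644_ag.Mid.root_C)

end Pool.Agent.S00549
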