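import Pool.Statements.S00798
import Pool.Agent.Work.MP_15a5ff_al.Main

set_option autoImplicit false
open Pool Pool.MP_15a5ff_al

namespace Pool.Agent.S00798

/-- The negation of the preceding statement: There is a second countable locally compact Hausdorff group S such that every connected second countable locally compact Hausdorff group embeds into S by an injective (not necessarily continuous) group homomorphism. -/
theorem result :
    ¬ (∃ (S : Type) (_ : TopologicalSpace S) (_ : Group S),
      IsTopologicalGroup S ∧ LocallyCompactSpace S ∧ T2Space S ∧ SecondCountableTopology S ∧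
      ∀ (G : Type) [TopologicalSpace G] [Group G] [IsTopologicalGroup G]
        [LocallyCompactSpace G] [T2Space G] [SecondCountableTopology G] [ConnectedSpace G],
        ∃ f : G →* S, Function.Injective f) := by
  rintro ⟨S, _, _, h1, h2, h3, h4, h⟩
  obtain ⟨C, hC⟩ := Pool.Agent.Work.MP_15a5ff_al.exists_bound S
  obtain ⟨f, hf⟩ := h (Pool.Agent.Work.MP_15a5ff_al.AxB (C + 1))
  have := hC (C + 1) f hf
  omega

end Pool.Agent.S00798
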