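import Pool.Statements.S00927
import Pool.Agent.Work.MP_228e0c_al.H45.Final

set_option autoImplicit false
open Pool Pool.MP_228e0c_al

namespace Pool.Agent.S00927

/-- For every infinite field K of prime characteristic p, some finite set of noncommutative polynomials generates, as a T-ideal (ideal closed under substitutions), exactly the polynomial identities of the 2×2 matrix algebra over K. -/
theorem result :
    ∀ (K : Type) [Field K] [Infinite K] (p : ℕ), p.Prime → CharP K p →
      ∃ S : Finset (FreeAlgebra K ℕ),
        ∀ f : FreeAlgebra K ℕ,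
          f ∈ Submodule.span K
              {x : FreeAlgebra K ℕ | ∃ (a b : FreeAlgebra K ℕ)
                  (φ : FreeAlgebra K ℕ →ₐ[K] FreeAlgebra K ℕ) (s : FreeAlgebra K ℕ),
                  s ∈ S ∧ x = a * φ s * b}
            ↔ ∀ v : ℕ → Matrix (Fin 2) (Fin 2) K, FreeAlgebra.lift K v f = 0 := by
  intro K _ _ p _ _
  obtain ⟨S, h1, h2⟩ := Pool.Agent.Work.MP_228e0c_al.H45.finite_basis (K := K)
  refine ⟨h1.toFinset, fun f => ?_⟩
  simp only [Set.Finite.mem_toFinset]
  exact h2 f

end Pool.Agent.S00927
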