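import Pool.Statements.S01239
import Pool.Agent.Work.MP_3bdf32_al.Main

set_option autoImplicit false
open Pool Pool.MP_3bdf32_al

namespace Pool.Agent.S01239

/-- It is decidable, given a rank n+1 and a finite list of words, whether the subgroup of the free group of rank n+1 generated by those words equals the fixed subgroup of some automorphism. -/
theorem result :
    ComputablePred (fun p : ℕ × List (List (ℕ × Bool)) =>
      ∃ φ : FreeGroup (Fin (p.1 + 1)) ≃* FreeGroup (Fin (p.1 + 1)),
        ((Subgroup.closure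
            ((fun w : List (ℕ × Bool) =>
                FreeGroup.mk (w.map (fun x : ℕ × Bool =>
                  ((⟨x.1 % (p.1 + 1), Nat.mod_lt x.1 (Nat.succ_pos p.1)⟩ : Fin (p.1 + 1)), x.2))))
              '' {w | w ∈ p.2}) : Subgroup (FreeGroup (Fin (p.1 + 1))))
          : Set (FreeGroup (Fin (p.1 + 1)))) = {x | φ x = x}) := by
  refine Pool.Agent.Work.MP_3bdf32_al.computable_fixed.of_eq fun p => exists_congr fun φ => ?_
  have e : (fun w : List (ℕ × Bool) =>
      FreeGroup.mk (w.map (fun x : ℕ × Bool =>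
        ((⟨x.1 % (p.1 + 1), Nat.mod_lt x.1 (Nat.succ_pos p.1)⟩ : Fin (p.1 + 1)), x.2))))
      '' {w | w ∈ p.2} = {w | w ∈ p.2.map (Pool.Agent.Work.MP_3bdf32_al.ev p.1)} := by
    ext g
    simp [Pool.Agent.Work.MP_3bdf32_al.ev]
  rw [e, Set.ext_iff]
  rfl

end Pool.Agent.S01239
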