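import Pool.Statements.S01577
import Pool.Agent.Work.MP_5b5e81_al.Final

set_option autoImplicit false
open Pool Pool.MP_5b5e81_al

namespace Pool.Agent.S01577

/-- For every n, with partitions of 2n points composed by gluing, the congruence on words over the idempotent partitions generated by e·f=ef for all basic pairs (ef or fe in {e,f}) is decidable, i.e. the word problem of IG(E(P_n)) is solvable. -/
theorem result :
  ∀ (n : ℕ) (mul : (Bool × Fin n → Bool × Fin n → Prop) → (Bool × Fin n → Bool × Fin n → Prop) → (Bool × Fin n → Bool × Fin n → Prop)),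
    (∀ α β x y, mul α β x y ↔ Relation.EqvGen (fun p q : Fin 3 × Fin n =>
        (∃ u v : Bool × Fin n, α u v ∧ p = ((if u.1 = true then 1 else 0 : Fin 3), u.2) ∧ q = ((if v.1 = true then 1 else 0 : Fin 3), v.2)) ∨
        (∃ u v : Bool × Fin n, β u v ∧ p = ((if u.1 = true then 2 else 1 : Fin 3), u.2) ∧ q = ((if v.1 = true then 2 else 1 : Fin 3), v.2)))
      ((if x.1 = true then 2 else 0 : Fin 3), x.2) ((if y.1 = true then 2 else 0 : Fin 3), y.2)) →
    ∀ (k : ℕ) (g : Fin k → (Bool × Fin n → Bool × Fin n → Prop)), Function.Injective g →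
    (∀ α, (Equivalence α ∧ mul α α = α) ↔ ∃ i, g i = α) →
    ComputablePred (fun w : List (Fin k) × List (Fin k) =>
      Relation.EqvGen (fun s t : List (Fin k) => ∃ (u v : List (Fin k)) (a b c : Fin k),
        (mul (g a) (g b) = g a ∨ mul (g a) (g b) = g b ∨ mul (g b) (g a) = g a ∨ mul (g b) (g a) = g b) ∧
        mul (g a) (g b) = g c ∧ s = u ++ [a, b] ++ v ∧ t = u ++ [c] ++ v) w.1 w.2) := by
  intro n mul hmul k g hg hidem
  have hm : ∀ α β : Work.MP_5b5e81_al.Pt n, mul α.r β.r = (α * β).r :=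
    fun α β => funext fun x => funext fun y => propext (hmul α.r β.r x y)
  let g' : Fin k → Work.MP_5b5e81_al.Pt n := fun i => ⟨g i, ((hidem _).mpr ⟨i, rfl⟩).1⟩
  have hr : ∀ α β : Work.MP_5b5e81_al.Pt n, α.r = β.r ↔ α = β :=
    fun α β => ⟨fun h => Work.MP_5b5e81_al.Pt.ext_r fun u v => by rw [h], fun h => by rw [h]⟩
  have hc : ∀ a b c, mul (g a) (g b) = g c ↔ g' a * g' b = g' c := fun a b c => by
    rw [← hr, ← hm]
    rfl
  have hg' : Function.Injective g' := fun a b h => hg ((hr _ _).mpr h)
  have hi : ∀ e, IsIdempotentElem e ↔ ∃ a, g' a = e := by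
    intro e
    have h1 := hidem e.r
    rw [hm, hr, and_iff_right e.eqv] at h1
    exact h1.trans (exists_congr fun a => hr (g' a) e)
  simp only [hc]
  exact Work.MP_5b5e81_al.word_problem hg' hi

end Pool.Agent.S01577
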