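import Pool.Statements.S01825
import Pool.Agent.Work.MP_6d3bd7_al.Final

set_option autoImplicit false
open MvPolynomial
open Pool Pool.MP_6d3bd7_al

namespace Pool.Agent.S01825

/-- For every finite field F_q, all m, n and composition α of n, the Hilbert series of the block-upper-triangular parabolic invariants in F_q[x]/(x_i^{q^m}) equals the sum over β ≤ α with ∣β∣ ≤ m of t^{e(m,α,β)} times the (q,t)-multinomial [m; β, m−∣β∣]. -/
theorem result :
    ∀ (F : Type) [Field F] [Fintype F] (q m n l : ℕ) (α : Fin l → ℕ)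
      (I : Ideal (MvPolynomial (Fin n) F)),
      q = Fintype.card F →
      (∀ i, 0 < α i) → ∑ i, α i = n →
      I = Ideal.span (Set.range (fun i : Fin n => (X i : MvPolynomial (Fin n) F) ^ (q ^ m))) →
      (∑ d ∈ Finset.range (n * q ^ m + 1),
        ((Module.finrank F (Submodule.map (Ideal.Quotient.mkₐ F I).toLinearMap
          (Submodule.span F {f : MvPolynomial (Fin n) F |
            f ∈ homogeneousSubmodule (Fin n) F d ∧
            ∀ M : Matrix (Fin n) (Fin n) F, IsUnit M.det →
              (∀ (i j : Fin n) (k : ℕ),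
                j.val < ∑ r ∈ Finset.univ.filter (fun r : Fin l => r.val < k), α r →
                ∑ r ∈ Finset.univ.filter (fun r : Fin l => r.val < k), α r ≤ i.val →
                M i j = 0) →
              aeval (fun j : Fin n => ∑ i : Fin n,
                  (C (M i j) : MvPolynomial (Fin n) F) * (X i : MvPolynomial (Fin n) F)) f
                - f ∈ I})) : ℕ) : RatFunc ℚ)
          * (RatFunc.X : RatFunc ℚ) ^ d)
      = ∑ β ∈ (Fintype.piFinset (fun i : Fin l => Finset.range (α i + 1))).filter
              (fun β => ∑ i, β i ≤ m),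
          (RatFunc.X : RatFunc ℚ) ^ (∑ i : Fin l, (α i - β i) *
              (q ^ m - q ^ (∑ r ∈ Finset.univ.filter (fun r : Fin l => r.val ≤ i.val), β r)))
          * ((∏ j ∈ Finset.range m, (1 - (RatFunc.X : RatFunc ℚ) ^ (q ^ m - q ^ j))) /
             ((∏ i : Fin l, ∏ j ∈ Finset.range (β i),
                (1 - (RatFunc.X : RatFunc ℚ) ^
                  (q ^ (∑ r ∈ Finset.univ.filter (fun r : Fin l => r.val ≤ i.val), β r)
                   - q ^ ((∑ r ∈ Finset.univ.filter (fun r : Fin l => r.val < i.val), β r) + j)))) *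
              ∏ j ∈ Finset.range (m - ∑ i, β i),
                (1 - (RatFunc.X : RatFunc ℚ) ^ (q ^ m - q ^ ((∑ i, β i) + j))))) := by
  intro F _ _ q m n l α I hq _ hn hI
  subst hq hn hI
  have h := Pool.Agent.Work.MP_6d3bd7_al.series_main (F := F) m
    (Pool.Agent.Work.MP_6d3bd7_al.blkOf_mono α)
  rw [Pool.Agent.Work.MP_6d3bd7_al.rhs_eq Fintype.one_lt_card] at h
  refine Eq.trans (Finset.sum_congr rfl fun d _ => ?_) h
  rw [← Pool.Agent.Work.MP_6d3bd7_al.span_eq_VV]
  rfl

end Pool.Agent.S01825
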