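import Pool.Statements.S02371
import Pool.Agent.Work.MP_9628a2_al.Limit
import Pool.Agent.Work.MP_9628a2_al.Logic

set_option autoImplicit false
open Pool Pool.MP_9628a2_al

namespace Pool.Agent.S02371

/-- There is a set of group quasi-identities whose consequences over all groups are exactly the quasi-identities true in every finite group, and in which no member follows from the others. -/
theorem result :
    ∃ S : Set ((n : ℕ) × (List (FreeGroup (Fin n)) × FreeGroup (Fin n))),
      (∀ q : (n : ℕ) × (List (FreeGroup (Fin n)) × FreeGroup (Fin n)),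
        (∀ (G : Type) [Group G] [Finite G], ∀ x : Fin q.1 → G,
            (∀ w ∈ q.2.1, FreeGroup.lift x w = 1) → FreeGroup.lift x q.2.2 = 1) ↔
        (∀ (G : Type) [Group G],
            (∀ p ∈ S, ∀ y : Fin p.1 → G,
              (∀ w ∈ p.2.1, FreeGroup.lift y w = 1) → FreeGroup.lift y p.2.2 = 1) →
            ∀ x : Fin q.1 → G,
              (∀ w ∈ q.2.1, FreeGroup.lift x w = 1) → FreeGroup.lift x q.2.2 = 1)) ∧
      (∀ p ∈ S, ¬ (∀ (G : Type) [Group G],
            (∀ r ∈ S, r ≠ p → ∀ y : Fin r.1 → G,
              (∀ w ∈ r.2.1, FreeGroup.lift y w = 1) → FreeGroup.lift y r.2.2 = 1) →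
            ∀ x : Fin p.1 → G,
              (∀ w ∈ p.2.1, FreeGroup.lift x w = 1) → FreeGroup.lift x p.2.2 = 1)) := by
  exact Pool.Agent.QIB.basis_of_cover Pool.Agent.QIB.exists_cover

end Pool.Agent.S02371
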