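import Pool.Statements.S02527
import Pool.Agent.Work.MP_a1538a_al.Dual

set_option autoImplicit false
open Pool Pool.MP_a1538a_al

namespace Pool.Agent.S02527

/-- For every finite field F_q and n, m ≥ 0, the GL_n(F_q)-invariants of F_q[x_1..x_n]/(x_i^{q^m}) have Hilbert series equal to the sum over k ≤ min(n,m) of t^{(n-k)(q^m-q^k)} times the (q,t)-binomial, the product over i<k of (1-t^{q^m-q^i})/(1-t^{q^k-q^i}). -/
theorem result :
    ∀ (F : Type) [Field F] [Fintype F] (n m : ℕ),
      PowerSeries.mk (fun d : ℕ =>
        ((Module.finrank F
          (Submodule.map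
            (Ideal.Quotient.mkₐ F
              (Ideal.span (Set.range fun i : Fin n =>
                (MvPolynomial.X i : MvPolynomial (Fin n) F) ^ (Fintype.card F ^ m)))).toLinearMap
            (MvPolynomial.homogeneousSubmodule (Fin n) F d ⊓
              ⨅ g : Matrix.GeneralLinearGroup (Fin n) F,
                LinearMap.ker
                  ((Ideal.Quotient.mkₐ F
                      (Ideal.span (Set.range fun i : Fin n =>
                        (MvPolynomial.X i : MvPolynomial (Fin n) F) ^ (Fintype.card F ^ m)))).toLinearMap
                    ∘ₗ ((MvPolynomial.aeval (fun i : Fin n =>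
                          ∑ j : Fin n, (g : Matrix (Fin n) (Fin n) F) i j •
                            (MvPolynomial.X j : MvPolynomial (Fin n) F))).toLinearMap
                        - LinearMap.id)))) : ℕ) : ℚ))
      = ∑ k ∈ Finset.range (min n m + 1),
          (PowerSeries.X : PowerSeries ℚ) ^ ((n - k) * (Fintype.card F ^ m - Fintype.card F ^ k)) *
            ∏ i ∈ Finset.range k,
              ((1 - (PowerSeries.X : PowerSeries ℚ) ^ (Fintype.card F ^ m - Fintype.card F ^ i)) *
                (1 - (PowerSeries.X : PowerSeries ℚ) ^ (Fintype.card F ^ k - Fintype.card F ^ i))⁻¹) := by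
  intro F _ _ n m
  exact Pool.Agent.Work.MP_a1538a_al.hilbert_series (F := F) (n := n) m

end Pool.Agent.S02527
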