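import Pool.Statements.S03218
import Pool.Agent.Work.MP_d893f2_al.Main

set_option autoImplicit false
open Pool Pool.MP_d893f2_al

namespace Pool.Agent.S03218

/-- The negation of the preceding statement: If a lattice embeds, as a lattice, into the equivalence relations on some set with all image relations pairwise commuting, then every surjective lattice-homomorphic image of it also has such an embedding. -/
theorem result :
    ¬ (∀ (L M : Type) [Lattice L] [Lattice M] (g : LatticeHom L M),
      Function.Surjective g →
      (∃ (α : Type) (f : LatticeHom L (Setoid α)), Function.Injective f ∧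
        ∀ (x y : L) (a b : α),
          (∃ c : α, (f x).r a c ∧ (f y).r c b) ↔ (∃ c : α, (f y).r a c ∧ (f x).r c b)) →
      (∃ (β : Type) (h : LatticeHom M (Setoid β)), Function.Injective h ∧
        ∀ (x y : M) (a b : β),
          (∃ c : β, (h x).r a c ∧ (h y).r c b) ↔ (∃ c : β, (h y).r a c ∧ (h x).r c b))) := by
  exact Pool.Agent.Work.MP_d893f2_al.main

end Pool.Agent.S03218
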