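import Pool.Statements.S03369
import Pool.Agent.Work.MP_e54950_al.Edge

set_option autoImplicit false
open Pool Pool.MP_e54950_al

namespace Pool.Agent.S03369

/-- Every idempotent algebra (any carrier, any signature of finitary operations) that has a Taylor term operation also has a 4-ary term operation e with e(v,v,u,u) = e(v,u,v,u) = e(u,u,u,v) for all u, v. -/
theorem result :
    ∀ (A : Type) (ι : Type) (ar : ι → ℕ) (op : (i : ι) → (Fin (ar i) → A) → A),
      (∀ (i : ι) (a : A), op i (fun _ => a) = a) →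
      (∃ n : ℕ, ∃ t : (Fin n → A) → A,
        (∀ S : Set ((Fin n → A) → A),
          (∀ j : Fin n, (fun x : Fin n → A => x j) ∈ S) →
          (∀ (i : ι) (g : Fin (ar i) → (Fin n → A) → A), (∀ k, g k ∈ S) →
              (fun x : Fin n → A => op i (fun k => g k x)) ∈ S) →
          t ∈ S) ∧
        ∀ j : Fin n, ∃ u v : Fin n → Bool, u j = true ∧ v j = false ∧
          ∀ x y : A, t (fun k => cond (u k) x y) = t (fun k => cond (v k) x y)) →
      ∃ e : (Fin 4 → A) → A,
        (∀ S : Set ((Fin 4 → A) → A),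
          (∀ j : Fin 4, (fun x : Fin 4 → A => x j) ∈ S) →
          (∀ (i : ι) (g : Fin (ar i) → (Fin 4 → A) → A), (∀ k, g k ∈ S) →
              (fun x : Fin 4 → A => op i (fun k => g k x)) ∈ S) →
          e ∈ S) ∧
        ∀ a b : A, e ![b, b, a, a] = e ![b, a, b, a] ∧ e ![b, a, b, a] = e ![a, a, a, b] := by
  rintro A ι ar op hid ⟨n, t, ht, hT⟩
  obtain ⟨e, he, h⟩ := Pool.Agent.W3E.weak_edge (op := op) hid ((Pool.Agent.W3E.Tm.iff t).2 ht) hT
  exact ⟨e, (Pool.Agent.W3E.Tm.iff e).1 he, h⟩

end Pool.Agent.S03369
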