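import Pool.Statements.S03567
import Pool.Agent.Work.MP_f66739_al.H66Two

set_option autoImplicit false
open Pool Pool.MP_f66739_al

namespace Pool.Agent.S03567

/-- There exist finitely many generators and two relators such that no algorithm decides which words in the generators represent the identity in the group they present. -/
theorem result :
    ∃ n : ℕ, ∃ r₁ r₂ : FreeGroup (Fin n),
      ¬ ComputablePred (fun w : List (Fin n × Bool) =>
          FreeGroup.mk w ∈ Subgroup.normalClosure ({r₁, r₂} : Set (FreeGroup (Fin n)))) := by
  obtain ⟨r₁, r₂, h⟩ := Pool.Agent.Work.MP_f66739_al.two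
  exact ⟨2, r₁, r₂, h⟩

end Pool.Agent.S03567
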