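import Pool.Statements.S03588
import Pool.Agent.Work.MP_f81df4_al.H80Main
import Pool.Agent.Work.MP_f81df4_al.TGrp
import Pool.Agent.Work.MP_f81df4_al.BMain

set_option autoImplicit false
open Pool Pool.MP_f81df4_al

namespace Pool.Agent.S03588

/-- The negation of the preceding statement: Every finitely generated residually finite group that is determined up to isomorphism by its Bohr compactification, among such groups, is also determined by its profinite completion; both completions are given by their universal properties. -/
theorem result :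
    ¬ (∀ (Λ : Type) [Group Λ], Group.FG Λ →
      (∀ g : Λ, g ≠ 1 → ∃ H : Subgroup Λ, H.index ≠ 0 ∧ g ∉ H) →
      (∀ (Γ : Type) [Group Γ], Group.FG Γ →
        (∀ g : Γ, g ≠ 1 → ∃ H : Subgroup Γ, H.index ≠ 0 ∧ g ∉ H) →
        ∀ (K : Type) [TopologicalSpace K] [Group K] [IsTopologicalGroup K] [CompactSpace K] [T2Space K]
          (L : Type) [TopologicalSpace L] [Group L] [IsTopologicalGroup L] [CompactSpace L] [T2Space L]
          (i : Λ →* K) (j : Γ →* L),
          (∀ (M : Type) [TopologicalSpace M] [Group M] [IsTopologicalGroup M] [CompactSpace M]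
              [T2Space M] (f : Λ →* M), ∃! h : K →* M, Continuous h ∧ h.comp i = f) →
          (∀ (M : Type) [TopologicalSpace M] [Group M] [IsTopologicalGroup M] [CompactSpace M]
              [T2Space M] (f : Γ →* M), ∃! h : L →* M, Continuous h ∧ h.comp j = f) →
          Nonempty (K ≃ₜ* L) → Nonempty (Γ ≃* Λ)) →
      (∀ (Γ : Type) [Group Γ], Group.FG Γ →
        (∀ g : Γ, g ≠ 1 → ∃ H : Subgroup Γ, H.index ≠ 0 ∧ g ∉ H) →
        ∀ (K : Type) [TopologicalSpace K] [Group K] [IsTopologicalGroup K] [CompactSpace K] [T2Space K]
          [TotallyDisconnectedSpace K]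
          (L : Type) [TopologicalSpace L] [Group L] [IsTopologicalGroup L] [CompactSpace L] [T2Space L]
          [TotallyDisconnectedSpace L]
          (i : Λ →* K) (j : Γ →* L),
          (∀ (M : Type) [TopologicalSpace M] [Group M] [IsTopologicalGroup M] [CompactSpace M]
              [T2Space M] [TotallyDisconnectedSpace M] (f : Λ →* M),
              ∃! h : K →* M, Continuous h ∧ h.comp i = f) →
          (∀ (M : Type) [TopologicalSpace M] [Group M] [IsTopologicalGroup M] [CompactSpace M]
              [T2Space M] [TotallyDisconnectedSpace M] (f : Γ →* M),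
              ∃! h : L →* M, Continuous h ∧ h.comp j = f) →
          Nonempty (K ≃ₜ* L) → Nonempty (Γ ≃* Λ))) := by
  exact Pool.Agent.Work.MP_f81df4_al.H80.main_of
    (fun _ _ _ _ A B => Pool.Agent.Work.MP_f81df4_al.not_bohrEquiv A B)
    (fun _ _ _ _ A E hG => Pool.Agent.Work.MP_f81df4_al.exists_form A E hG)

end Pool.Agent.S03588
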