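import Pool.Statements.S03705
import Pool.Agent.Work.MP_042f46_an.F.Top

set_option autoImplicit false
open Pool Pool.MP_042f46_an

namespace Pool.Agent.S03705

/-- For every rational map p/q of degree at least 2 whose Siegel disc S about 0 (irrational rotation, maximal invariant domain conjugate to a rotation) has bounded closure in the plane, the map is injective on the boundary of S. -/
theorem result :
    ∀ (p q : Polynomial ℂ) (α : ℝ) (S : Set ℂ),
      IsCoprime p q → 2 ≤ max p.natDegree q.natDegree → Irrational α →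
      IsOpen S → IsConnected S → (0 : ℂ) ∈ S → Bornology.IsBounded (closure S) →
      (∀ z ∈ closure S, q.eval z ≠ 0) →
      Set.MapsTo (fun z : ℂ => p.eval z / q.eval z) S S →
      (∃ h : ℂ → ℂ, DifferentiableOn ℂ h S ∧ Set.InjOn h S ∧ h 0 = 0 ∧
        ∀ z ∈ S, h (p.eval z / q.eval z)
          = Complex.exp (2 * (Real.pi : ℂ) * Complex.I * (α : ℂ)) * h z) →
      (∀ T : Set ℂ, IsOpen T → IsConnected T → S ⊆ T → (∀ z ∈ T, q.eval z ≠ 0) →
        Set.MapsTo (fun z : ℂ => p.eval z / q.eval z) T T →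
        (∃ g : ℂ → ℂ, DifferentiableOn ℂ g T ∧ Set.InjOn g T ∧ g 0 = 0 ∧
          ∀ z ∈ T, g (p.eval z / q.eval z)
            = Complex.exp (2 * (Real.pi : ℂ) * Complex.I * (α : ℂ)) * g z) → T = S) →
      Set.InjOn (fun z : ℂ => p.eval z / q.eval z) (frontier S) := by
  intro p q α S hc hd hα hS hconn h0 hb hq hm hlin _
  obtain ⟨h, hh, hi, hz, hf⟩ := hlin
  exact Pool.Agent.Work.MP_042f46_an.Fu.main_of Pool.Agent.Work.MP_042f46_an.Fu.inj_all p q α S hc
    (by omega) hα hS hconn.isPreconnected h0 (hb.subset subset_closure) hq hm hh hi hz hf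

end Pool.Agent.S03705
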