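import Pool.Statements.S03796
import Pool.Agent.Work.MP_0c4bbf_an.Sections

set_option autoImplicit false
open Pool Pool.MP_0c4bbf_an

namespace Pool.Agent.S03796

/-- The negation of the preceding statement: For every n and every compact K in the unit sphere of ℂ^n that is not the exact zero set in the closed ball of a ball-algebra function, some point of the closed ball outside K is a common zero of all ball-algebra functions vanishing on K. -/
theorem result :
    ¬ (∀ (n : ℕ) (K : Set (EuclideanSpace ℂ (Fin n))),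
      IsCompact K →
      K ⊆ Metric.sphere (0 : EuclideanSpace ℂ (Fin n)) 1 →
      (¬ ∃ f : EuclideanSpace ℂ (Fin n) → ℂ,
          ContinuousOn f (Metric.closedBall (0 : EuclideanSpace ℂ (Fin n)) 1) ∧
          DifferentiableOn ℂ f (Metric.ball (0 : EuclideanSpace ℂ (Fin n)) 1) ∧
          {z | z ∈ Metric.closedBall (0 : EuclideanSpace ℂ (Fin n)) 1 ∧ f z = 0} = K) →
      ∃ z ∈ Metric.closedBall (0 : EuclideanSpace ℂ (Fin n)) 1, z ∉ K ∧
        ∀ f : EuclideanSpace ℂ (Fin n) → ℂ,
          ContinuousOn f (Metric.closedBall (0 : EuclideanSpace ℂ (Fin n)) 1) →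
          DifferentiableOn ℂ f (Metric.ball (0 : EuclideanSpace ℂ (Fin n)) 1) →
          (∀ w ∈ K, f w = 0) → f z = 0) := by
  intro H
  obtain ⟨z, hz, hzK, hall⟩ := H 2
    (Metric.closedBall 0 1 \ Work.MP_0c4bbf_an.goodSet Work.MP_0c4bbf_an.psi1 Work.MP_0c4bbf_an.psi2)
    Work.MP_0c4bbf_an.admissible.isCompact_bad
    (by
      intro z hz
      have h1 : ‖z‖ ≤ 1 := by simpa using hz.1
      rcases h1.lt_or_eq with h2 | h2
      · exact absurd (Work.MP_0c4bbf_an.admissible.mem_good h2) hz.2
      · simpa using h2)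
    Work.MP_0c4bbf_an.not_zero_set
  have hg : z ∈ Work.MP_0c4bbf_an.goodSet Work.MP_0c4bbf_an.psi1 Work.MP_0c4bbf_an.psi2 := by
    by_contra hg
    exact hzK ⟨hz, hg⟩
  obtain ⟨f, hc, hd, hK, hne⟩ := Work.MP_0c4bbf_an.exists_nonvanishing hg
  exact hne (hall f hc hd hK)

end Pool.Agent.S03796
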