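import Pool.Statements.S04095
import Pool.Agent.Work.MP_267827_an.PS.Final

set_option autoImplicit false
open Pool Pool.MP_267827_an

namespace Pool.Agent.S04095

/-- For n at least 5, every simple n-gon with the same area as a regular n-gon has first Dirichlet Laplacian eigenvalue at least that of the regular n-gon, and equality holds only if the n-gon is congruent to the regular one. -/
theorem result :
  ∀ n : ℕ, 5 ≤ n → ∀ r : ℝ, 0 < r → ∀ v : Fin n → EuclideanSpace ℝ (Fin 2),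
    (∀ i : Fin n, ¬ Collinear ℝ ({v i, v (finRotate n i), v (finRotate n (finRotate n i))} :
        Set (EuclideanSpace ℝ (Fin 2)))) →
    (∀ i j : Fin n, j ≠ i → j ≠ finRotate n i → i ≠ finRotate n j →
      Disjoint (segment ℝ (v i) (v (finRotate n i))) (segment ℝ (v j) (v (finRotate n j)))) →
    ∀ w : Fin n → EuclideanSpace ℝ (Fin 2),
    (∀ k : Fin n, w k = !₂[r * Real.cos (2 * Real.pi * ((k : ℕ) : ℝ) / (n : ℝ)),
                          r * Real.sin (2 * Real.pi * ((k : ℕ) : ℝ) / (n : ℝ))]) →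
    ∀ P R : Set (EuclideanSpace ℝ (Fin 2)),
    P = {x | x ∉ (⋃ i : Fin n, segment ℝ (v i) (v (finRotate n i))) ∧
          Bornology.IsBounded
            (connectedComponentIn (⋃ i : Fin n, segment ℝ (v i) (v (finRotate n i)))ᶜ x)} →
    R = {x | x ∉ (⋃ i : Fin n, segment ℝ (w i) (w (finRotate n i))) ∧
          Bornology.IsBounded
            (connectedComponentIn (⋃ i : Fin n, segment ℝ (w i) (w (finRotate n i)))ᶜ x)} →
    MeasureTheory.volume P = MeasureTheory.volume R →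
    ∀ lP lR : ℝ,
    lP = sInf {q : ℝ | ∃ u : EuclideanSpace ℝ (Fin 2) → ℝ, ContDiff ℝ 1 u ∧
          HasCompactSupport u ∧ tsupport u ⊆ P ∧ u ≠ 0 ∧
          q = (∫ x, ‖fderiv ℝ u x‖ ^ 2) / (∫ x, u x ^ 2)} →
    lR = sInf {q : ℝ | ∃ u : EuclideanSpace ℝ (Fin 2) → ℝ, ContDiff ℝ 1 u ∧
          HasCompactSupport u ∧ tsupport u ⊆ R ∧ u ≠ 0 ∧
          q = (∫ x, ‖fderiv ℝ u x‖ ^ 2) / (∫ x, u x ^ 2)} →
    lR ≤ lP ∧
      (lP = lR → ∃ e : EuclideanSpace ℝ (Fin 2) ≃ᵢ EuclideanSpace ℝ (Fin 2), e '' P = R) := by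
  exact fun n hn => Pool.Agent.Work.MP_267827_an.transfer n
    (Pool.Agent.Work.MP_267827_an.PS.core_all hn)

end Pool.Agent.S04095
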