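import Pool.Statements.S04170
import Pool.Agent.Work.MP_2b187c_an.Space

set_option autoImplicit false
open Pool Pool.MP_2b187c_an

namespace Pool.Agent.S04170

/-- The negation of the preceding statement: Every separable real Banach space with a continuous polynomial P, P(0)=0 and P ≥ c > 0 on the unit sphere, has an equivalent norm that is C^m away from 0 for every m. -/
theorem result :
    ¬ (∀ (X : Type) [NormedAddCommGroup X] [NormedSpace ℝ X] [CompleteSpace X]
      [TopologicalSpace.SeparableSpace X],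
      (∃ (n : ℕ) (p : FormalMultilinearSeries ℝ X ℝ),
          (∑ k ∈ Finset.range (n + 1), p k (fun _ => (0 : X))) = 0 ∧
          ∃ c : ℝ, 0 < c ∧ ∀ x : X, ‖x‖ = 1 →
            c ≤ ∑ k ∈ Finset.range (n + 1), p k (fun _ => x)) →
      ∃ N : X → ℝ,
        (∀ x y : X, N (x + y) ≤ N x + N y) ∧
        (∀ (r : ℝ) (x : X), N (r • x) = |r| * N x) ∧
        (∃ a b : ℝ, 0 < a ∧ 0 < b ∧ ∀ x : X, a * ‖x‖ ≤ N x ∧ N x ≤ b * ‖x‖) ∧
        ∀ m : ℕ, ContDiffOn ℝ m N ({0}ᶜ : Set X)) := by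
  intro H
  obtain ⟨P, hP⟩ := Pool.Agent.Work.MP_2b187c_an.exists_separating
  obtain ⟨p, hs⟩ : ∃ p : FormalMultilinearSeries ℝ Pool.Agent.Work.MP_2b187c_an.Space ℝ,
      ∀ x, ∑ k ∈ Finset.range (4 + 1), p k (fun _ => x) = P (fun _ => x) := by
    refine ⟨Function.update (fun k => (0 : ContinuousMultilinearMap ℝ
      (fun _ : Fin k => Pool.Agent.Work.MP_2b187c_an.Space) ℝ)) 4 P, fun x => ?_⟩
    rw [Finset.sum_eq_single 4]
    · rw [Function.update_self]
    · intro k _ hk
      rw [Function.update_of_ne hk]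
      rfl
    · simp
  obtain ⟨N, h1, h2, ⟨a, b, ha, hb, h3⟩, h4⟩ := H Pool.Agent.Work.MP_2b187c_an.Space
    ⟨4, p, by rw [hs]; exact P.map_coord_zero 0 rfl, 1 / 324, by norm_num, fun x hx => by
      rw [hs]; simpa [hx] using hP x⟩
  exact Pool.Agent.Work.MP_2b187c_an.no_smooth_norm h1 h2 ha hb h3 (h4 5)

end Pool.Agent.S04170
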