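import Pool.Statements.S04248
import Pool.Agent.Work.MP_3070fc_an.Obstruct
import Pool.Agent.Work.MP_3070fc_an.Group

set_option autoImplicit false
open Pool Pool.MP_3070fc_an

namespace Pool.Agent.S04248

open Pool.Agent.Work.MP_3070fc_an in
/-- The negation of the preceding statement: Every faithful C^∞ circle action of a finitely generated group with an exceptional minimal set can be joined, by a C^∞-continuous path of faithful C^∞ actions, to a minimal action, with each intermediate action before the endpoint having an exceptional minimal set. -/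
theorem result :
    ¬ (∀ (G : Type) [Group G] [Group.FG G] (φ₀ : G → Circle → Circle),
    (φ₀ 1 = id ∧ (∀ g h : G, φ₀ (g * h) = φ₀ g ∘ φ₀ h) ∧ Function.Injective φ₀ ∧
      ∀ (g : G) (k : ℕ), ContDiff ℝ (k : WithTop ℕ∞) (fun θ : ℝ => (φ₀ g (Circle.exp θ) : ℂ))) →
    (∃ K : Set Circle, IsClosed K ∧ K.Nonempty ∧ (∀ g : G, φ₀ g '' K ⊆ K) ∧
      (∀ L : Set Circle, L ⊆ K → IsClosed L → L.Nonempty → (∀ g : G, φ₀ g '' L ⊆ L) → L = K) ∧
      K.Infinite ∧ K ≠ Set.univ) →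
    ∃ φ : ℝ → G → Circle → Circle, φ 0 = φ₀ ∧
      (∀ t ∈ Set.Icc (0:ℝ) 1, φ t 1 = id ∧ (∀ g h : G, φ t (g * h) = φ t g ∘ φ t h) ∧
        Function.Injective (φ t) ∧
        ∀ (g : G) (k : ℕ), ContDiff ℝ (k : WithTop ℕ∞) (fun θ : ℝ => (φ t g (Circle.exp θ) : ℂ))) ∧
      (∀ (g : G) (k : ℕ), ∀ t₀ ∈ Set.Icc (0:ℝ) 1, ∀ ε > (0:ℝ), ∃ δ > (0:ℝ),
        ∀ t ∈ Set.Icc (0:ℝ) 1, |t - t₀| < δ → ∀ θ : ℝ,
          ‖iteratedDeriv k (fun s : ℝ => (φ t g (Circle.exp s) : ℂ)) θ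
            - iteratedDeriv k (fun s : ℝ => (φ t₀ g (Circle.exp s) : ℂ)) θ‖ < ε) ∧
      (∀ t ∈ Set.Ico (0:ℝ) 1, ∃ K : Set Circle, IsClosed K ∧ K.Nonempty ∧
        (∀ g : G, φ t g '' K ⊆ K) ∧
        (∀ L : Set Circle, L ⊆ K → IsClosed L → L.Nonempty → (∀ g : G, φ t g '' L ⊆ L) → L = K) ∧
        K.Infinite ∧ K ≠ Set.univ) ∧
      (∀ x : Circle, Dense {y : Circle | ∃ g : G, φ 1 g x = y})) := by
  intro H
  obtain ⟨h, hs, hs', hfix, hne⟩ := exists_arc_diffeo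
  have hfin : Finite (gens h) := (Set.finite_range sg).insert h
  let G : Subgroup (Equiv.Perm Circle) := Subgroup.closure (gens h)
  have hsg : ∀ i, sg i ∈ G := fun i => Subgroup.subset_closure (Or.inr ⟨i, rfl⟩)
  have hh : h ∈ G := Subgroup.subset_closure (Or.inl rfl)
  obtain ⟨K, hK0, hKc, hKn, hKi, hKm⟩ := exists_minimal (fun (g : G) (z : Circle) => g.1 z)
    K0_closed K0_nonempty (fun g => by
      rintro _ ⟨z, hz, rfl⟩
      exact K0_inv hfix g.2 z hz)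
  obtain ⟨φ, _, hφ, _, _, hmin⟩ := H G (fun (g : G) (z : Circle) => g.1 z)
    ⟨rfl, fun _ _ => rfl, fun g g' e => Subtype.ext (Equiv.ext (congrFun e)),
      fun g k => (gens_sm hs hs' g.2).contDiff k⟩
    ⟨K, hKc, hKn, hKi, hKm,
      infinite_of_inv hKn (fun i z hz => hKi ⟨sg i, hsg i⟩ ⟨z, hz, rfl⟩),
      fun e => one_not_mem_K0 (hK0 (e ▸ Set.mem_univ _))⟩
  obtain ⟨h1, hm, hinj, hsm⟩ := hφ 1 ⟨zero_le_one, le_rfl⟩
  have key := obstruction h1 hm (fun g => continuous_of_contDiff (hsm g 0)) hinj hmin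
    (⟨h, hh⟩ : G) (fun g => Subtype.ext (conj_commute hfix g.2).eq)
    (⟨sg 0, hsg 0⟩ * ⟨sg 1, hsg 1⟩)
  exact commutator_ne_one hfix hne (congrArg Subtype.val key)

end Pool.Agent.S04248
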