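import Pool.Statements.S04342
import Pool.Agent.Work.MP_3789da_an.Tree

set_option autoImplicit false
open Pool Pool.MP_3789da_an

namespace Pool.Agent.S04342

/-- The negation of the preceding statement: Every multivalued map on a nonempty complete metric space with nonempty closed values, whose Hausdorff distance H(Tx,Ty) is less than φ(d(x,y)) for x≠y with φ an L-function, has a point x with x in Tx. -/
theorem result :
    ¬ (∀ (X : Type) [MetricSpace X] [CompleteSpace X] [Nonempty X]
      (T : X → Set X) (φ : ℝ → ℝ),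
      (∀ x, (T x).Nonempty ∧ IsClosed (T x)) →
      φ 0 = 0 →
      (∀ s : ℝ, 0 < s → 0 < φ s) →
      (∀ s : ℝ, 0 < s → ∃ δ : ℝ, 0 < δ ∧ ∀ t ∈ Set.Icc s (s + δ), φ t ≤ s) →
      (∀ x y : X, x ≠ y →
        EMetric.hausdorffEdist (T x) (T y) < ENNReal.ofReal (φ (dist x y))) →
      ∃ x : X, x ∈ T x) := by
  intro h
  obtain ⟨x, hx⟩ := h Pool.Agent.Work.MP_3789da_an.Node Pool.Agent.Work.MP_3789da_an.T
    (fun t => 2 * t / (2 + t))
    (fun x => ⟨Pool.Agent.Work.MP_3789da_an.T_nonempty x,
      Pool.Agent.Work.MP_3789da_an.isClosed_all _⟩)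
    (by simp)
    (fun s hs => by positivity)
    (fun s hs => ⟨s ^ 2 / 2, by positivity, fun t ht => by
      obtain ⟨h1, h2⟩ := ht
      have h3 : 0 < 2 + t := by linarith
      rw [div_le_iff₀ h3]
      nlinarith⟩)
    (fun x y hxy => by
      refine lt_of_le_of_lt (Pool.Agent.Work.MP_3789da_an.hausdorff_le hxy) ?_
      have hd : 0 < dist x y := dist_pos.mpr hxy
      rw [ENNReal.ofReal_lt_ofReal_iff (by positivity)]
      rw [div_lt_div_iff₀ (by positivity) (by positivity)]
      nlinarith)
  exact Pool.Agent.Work.MP_3789da_an.not_mem_T x hx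

end Pool.Agent.S04342
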