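import Pool.Statements.S04630
import Pool.Agent.Work.MP_4e33a2_an.Oper

set_option autoImplicit false
open Pool Pool.MP_4e33a2_an

namespace Pool.Agent.S04630

/-- The negation of the preceding statement: On every real Banach lattice, each positive compact operator C with ‖Cⁿ‖^(1/n) → 0 equals AB − BA for some positive bounded operators A, B, at least one of which is compact. -/
theorem result :
    ¬ (∀ (E : Type) [NormedAddCommGroup E] [Lattice E] [HasSolidNorm E] [IsOrderedAddMonoid E]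
      [NormedSpace ℝ E] [PosSMulMono ℝ E] [CompleteSpace E] (C : E →L[ℝ] E),
      (∀ x : E, 0 ≤ x → 0 ≤ C x) →
      IsCompactOperator C →
      Filter.Tendsto (fun n : ℕ => ‖C ^ n‖ ^ (1 / (n : ℝ))) Filter.atTop (nhds 0) →
      ∃ A B : E →L[ℝ] E,
        (∀ x : E, 0 ≤ x → 0 ≤ A x) ∧
        (∀ x : E, 0 ≤ x → 0 ≤ B x) ∧
        (IsCompactOperator A ∨ IsCompactOperator B) ∧
        C = A * B - B * A) := by
  intro h
  obtain ⟨β, hβ⟩ := Pool.Agent.Work.MP_4e33a2_an.counterexample
  obtain ⟨A, B, hA, hB, hc, heq⟩ := h (Pool.Agent.Work.MP_4e33a2_an.Sp β)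
    (Pool.Agent.Work.MP_4e33a2_an.Sp.op β) Pool.Agent.Work.MP_4e33a2_an.Sp.op_pos
    Pool.Agent.Work.MP_4e33a2_an.Sp.op_compact Pool.Agent.Work.MP_4e33a2_an.Sp.op_qn
  exact hβ A B hA hB hc heq

end Pool.Agent.S04630
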