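import Pool.Statements.S04773
import Pool.Agent.Work.MP_5c5849_an.Main

set_option autoImplicit false
open Pool Pool.MP_5c5849_an

namespace Pool.Agent.S04773

/-- There are finite q≥2 and C such that, with probability tending to 1 as n grows (uniformly in N≥n), R^n normed by the gauge of the convex hull of ±N i.i.d. standard Gaussian vectors has cotype q with constant at most C. -/
theorem result :
  ∃ q C : ℝ, 2 ≤ q ∧ 0 < C ∧ ∀ ε : ℝ, 0 < ε → ∃ n₀ : ℕ, ∀ n N : ℕ, n₀ ≤ n → n ≤ N →
    ENNReal.ofReal (1 - ε) ≤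
      (MeasureTheory.Measure.pi fun _ : Fin N =>
          MeasureTheory.Measure.pi fun _ : Fin n => ProbabilityTheory.gaussianReal 0 1)
        {g : Fin N → Fin n → ℝ | ∀ (m : ℕ) (x : Fin m → Fin n → ℝ),
          (∑ i, gauge (convexHull ℝ (Set.range g ∪ Set.range (-g))) (x i) ^ q) ^ (1 / q) ≤
            C * ((∑ s : Fin m → Fin 2,
                    gauge (convexHull ℝ (Set.range g ∪ Set.range (-g)))
                      (∑ i, ((-1 : ℝ) ^ (s i : ℕ)) • x i) ^ (2 : ℝ)) / 2 ^ m) ^ (1 / 2 : ℝ)} := by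
  refine ⟨2, (65 + 4) * (1 + 6 * 10 ^ 13), le_rfl, by norm_num, fun ε hε => ?_⟩
  have hlim : Filter.Tendsto (fun n : ℕ => 3 * Real.exp (-((n : ℝ) / 10))) Filter.atTop
      (nhds (3 * 0)) := by
    refine Filter.Tendsto.const_mul 3 (Real.tendsto_exp_neg_atTop_nhds_zero.comp ?_)
    exact tendsto_natCast_atTop_atTop.atTop_div_const (by norm_num)
  rw [mul_zero] at hlim
  obtain ⟨n₀, hn₀⟩ := Filter.eventually_atTop.1 (hlim.eventually (gt_mem_nhds hε))
  refine ⟨max n₀ 2, fun n N hn hN => ?_⟩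
  have h1 := hn₀ n (le_of_max_le_left hn)
  refine le_trans (ENNReal.ofReal_le_ofReal (by linarith))
    ((Pool.Agent.Work.MP_5c5849_an.prob_cot (le_of_max_le_right hn) hN).trans
      (MeasureTheory.measure_mono fun g hg m x => ?_))
  have h2 := hg m x
  simp only [Real.sqrt_eq_rpow] at h2
  simp only [Real.rpow_two]
  exact h2

end Pool.Agent.S04773
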