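import Pool.Statements.S05366
import Pool.Agent.Work.MP_8e7914_an.Main

set_option autoImplicit false
open MeasureTheory Set
open Pool Pool.MP_8e7914_an

namespace Pool.Agent.S05366

open Pool.Agent.Work.MP_8e7914_an ComplexConjugate in
/-- The negation of the preceding statement: For s square-integrable on [-ω,ω]: if S f = d/dx ∫ s(x−t)f(t)dt is bounded on L²(0,ω), all sections S_ξ are invertible, and B(ξ) is absolutely continuous with B′ of rank 1 a.e., then S = S₋S₊ with S₊ upper and S₋ lower triangular, each boundedly invertible with triangular inverse. -/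
theorem result :
    ¬ (∀ ω : ℝ, 0 < ω → ∀ s : ℝ → ℂ,
      MemLp s 2 (volume.restrict (Ioo (0:ℝ) ω)) →
      MemLp (fun x => s (-x)) 2 (volume.restrict (Ioo (0:ℝ) ω)) →
      ∀ S : Lp ℂ 2 (volume.restrict (Ioo (0:ℝ) ω)) →L[ℂ] Lp ℂ 2 (volume.restrict (Ioo (0:ℝ) ω)),
      (∀ f : Lp ℂ 2 (volume.restrict (Ioo (0:ℝ) ω)), ∀ x ∈ Icc (0:ℝ) ω,
          (∫ y in (0:ℝ)..x, ⇑(S f) y) =
            (∫ t in (0:ℝ)..ω, s (x - t) * ⇑f t) - ∫ t in (0:ℝ)..ω, s (-t) * ⇑f t) →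
      (∀ ξ ∈ Icc (0:ℝ) ω, ∀ h : Lp ℂ 2 (volume.restrict (Ioo (0:ℝ) ω)),
          ∃! u : Lp ℂ 2 (volume.restrict (Ioo (0:ℝ) ω)),
            (∀ᵐ x ∂(volume : Measure ℝ), x ∈ Ioo ξ ω → ⇑u x = 0) ∧
            (∀ᵐ x ∂(volume : Measure ℝ), x ∈ Ioo 0 ξ → ⇑(S u) x = ⇑h x)) →
      (∃ U V : ℝ → Lp ℂ 2 (volume.restrict (Ioo (0:ℝ) ω)),
          (∀ ξ ∈ Icc (0:ℝ) ω,
            (∀ᵐ x ∂(volume : Measure ℝ), x ∈ Ioo ξ ω → ⇑(U ξ) x = 0) ∧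
            (∀ᵐ x ∂(volume : Measure ℝ), x ∈ Ioo 0 ξ → ⇑(S (U ξ)) x = s x) ∧
            (∀ᵐ x ∂(volume : Measure ℝ), x ∈ Ioo ξ ω → ⇑(V ξ) x = 0) ∧
            (∀ᵐ x ∂(volume : Measure ℝ), x ∈ Ioo 0 ξ → ⇑(S (V ξ)) x = 1)) ∧
          ∃ D : Fin 2 → Fin 2 → ℝ → ℂ,
            (∀ i j, IntegrableOn (D i j) (Icc (0:ℝ) ω)) ∧
            (∀ ξ ∈ Icc (0:ℝ) ω,
              (∫ x in (0:ℝ)..ξ, ⇑(U ξ) x) = (∫ x in (0:ℝ)..ξ, D 0 0 x) ∧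
              (∫ x in (0:ℝ)..ξ, ⇑(U ξ) x * (-s (-x))) = (∫ x in (0:ℝ)..ξ, D 0 1 x) ∧
              (∫ x in (0:ℝ)..ξ, ⇑(V ξ) x) = (∫ x in (0:ℝ)..ξ, D 1 0 x) ∧
              (∫ x in (0:ℝ)..ξ, ⇑(V ξ) x * (-s (-x))) = (∫ x in (0:ℝ)..ξ, D 1 1 x)) ∧
            (∀ᵐ x ∂(volume : Measure ℝ), x ∈ Ioo 0 ω →
              (Matrix.of fun i j => D i j x).rank = 1)) →
      ∃ Sm Sp : Lp ℂ 2 (volume.restrict (Ioo (0:ℝ) ω)) ≃L[ℂ] Lp ℂ 2 (volume.restrict (Ioo (0:ℝ) ω)),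
        (∀ ξ ∈ Icc (0:ℝ) ω, ∀ f : Lp ℂ 2 (volume.restrict (Ioo (0:ℝ) ω)),
          (∀ᵐ x ∂(volume : Measure ℝ), x ∈ Ioo ξ ω → ⇑f x = 0) →
          ((∀ᵐ x ∂(volume : Measure ℝ), x ∈ Ioo ξ ω → ⇑(Sp f) x = 0) ∧
           (∀ᵐ x ∂(volume : Measure ℝ), x ∈ Ioo ξ ω → ⇑(Sp.symm f) x = 0))) ∧
        (∀ ξ ∈ Icc (0:ℝ) ω, ∀ f : Lp ℂ 2 (volume.restrict (Ioo (0:ℝ) ω)),
          (∀ᵐ x ∂(volume : Measure ℝ), x ∈ Ioo 0 ξ → ⇑f x = 0) →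
          ((∀ᵐ x ∂(volume : Measure ℝ), x ∈ Ioo 0 ξ → ⇑(Sm f) x = 0) ∧
           (∀ᵐ x ∂(volume : Measure ℝ), x ∈ Ioo 0 ξ → ⇑(Sm.symm f) x = 0))) ∧
        (∀ f : Lp ℂ 2 (volume.restrict (Ioo (0:ℝ) ω)), S f = Sm (Sp f))) := by
  intro H
  have hK := small_D adm_cc.1
  have hio : ∀ (F : BB), ∀ᵐ x ∂(volume : Measure ℝ), x ∈ Ioo (0 : ℝ) 1 → io F x = F x :=
    fun F => (ae_restrict_iff' measurableSet_Ioo).1 (coe_io F)
  have hs1 : MemLp ss 2 (volume.restrict (Ioo (0:ℝ) 1)) := by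
    refine (Lp.memLp (io MM)).ae_eq ?_
    filter_upwards [coe_io MM, ae_restrict_mem measurableSet_Ioo] with x h1 h2
    rw [h1, ss_pos h2.1]
  have hs2 : MemLp (fun x => ss (-x)) 2 (volume.restrict (Ioo (0:ℝ) 1)) := by
    refine (Lp.memLp (io (AA 0))).star.ae_eq ?_
    filter_upwards [coe_io (AA 0), ae_restrict_mem measurableSet_Ioo] with x h1 h2
    rw [Pi.star_apply, h1, ss_neg h2.1]
    rfl
  let φ : Fin 2 → HH := ![io MM, e 0]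
  let ψ : Fin 2 → HH := ![e 0, io (-AA 0)]
  have hφ : ∀ i, ∃ a, 0 ≤ a ∧ Dat a (φ i) := by
    intro i
    fin_cases i
    · exact ⟨1, zero_le_one, dat_MM⟩
    · exact ⟨0, le_rfl, dat_e_zero⟩
  have hψ : ∀ i, ∃ a, 0 ≤ a ∧ Dat a (ψ i) := by
    intro i
    fin_cases i
    · exact ⟨0, le_rfl, dat_e_zero⟩
    · exact ⟨1, zero_le_one, dat_AA⟩
  have hN : ∀ ξ ∈ Icc (0 : ℝ) 1, ∀ u : HH, (∫ x in (0:ℝ)..ξ, (P ξ u) x * (-ss (-x))) =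
      inner ℂ (io (-AA 0)) (P ξ u) := by
    intro ξ hξ u
    conv_rhs => rw [← P_P]
    rw [inner_io_P hξ]
    apply integral_congr_mu hξ
    filter_upwards [ae_restrict_mem measurableSet_Ioo] with t ht
    rw [ss_neg ht.1, mul_comm]
    simp
  obtain ⟨Sm, Sp, h1, h2, h3⟩ := H 1 one_pos ss hs1 hs2 (1 + D cc)
    (fun f x hx => conv_identity f hx)
    (fun ξ hξ h => by
      refine ⟨P ξ (sol (D cc) ξ h), ⟨(P_eq_self_iff hξ _).2 (P_P _ _),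
        (P_eq_iff hξ _ _).2 (P_sol hK ξ h)⟩, fun u hu => ?_⟩
      exact sol_unique hK ((P_eq_self_iff hξ _).1 hu.1) ((P_eq_iff hξ _ _).1 hu.2))
    ⟨fun ξ => P ξ (sol (D cc) ξ (io MM)), fun ξ => P ξ (sol (D cc) ξ (e 0)), fun ξ hξ => by
      refine ⟨(P_eq_self_iff hξ _).2 (P_P _ _), ?_, (P_eq_self_iff hξ _).2 (P_P _ _), ?_⟩
      · filter_upwards [(P_eq_iff hξ _ _).2 (P_sol hK ξ (io MM)), hio MM] with x a1 a2 hx
        rw [a1 hx, a2 ⟨hx.1, hx.2.trans_le hξ.2⟩, ss_pos hx.1]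
      · filter_upwards [(P_eq_iff hξ _ _).2 (P_sol hK ξ (e 0)), hio (EE 0)] with x a1 a2 hx
        rw [a1 hx, e, a2 ⟨hx.1, hx.2.trans_le hξ.2⟩, EE_zero],
      fun i j x => conj (VV (fun m => conj (cc m)) (ψ j) x x) * VV cc (φ i) x x, by
      intro i j
      obtain ⟨a, ha, ha'⟩ := hφ i
      obtain ⟨b, hb, hb'⟩ := hψ j
      have c1 := continuous_VV adm_cc ha ha'
      have c2 := continuous_VV adm_cc.conj hb hb'
      refine Continuous.integrableOn_Icc ?_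
      fun_prop, by
      intro ξ hξ
      refine ⟨?_, ?_, ?_, ?_⟩
      · rw [integral_eq_inner hξ, P_P]
        exact form_VV adm_cc zero_le_one le_rfl dat_MM dat_e_zero hξ
      · rw [hN ξ hξ]
        exact form_VV adm_cc zero_le_one zero_le_one dat_MM dat_AA hξ
      · rw [integral_eq_inner hξ, P_P]
        exact form_VV adm_cc le_rfl le_rfl dat_e_zero dat_e_zero hξ
      · rw [hN ξ hξ]
        exact form_VV adm_cc le_rfl zero_le_one dat_e_zero dat_AA hξ, by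
      refine Filter.Eventually.of_forall fun x _ => ?_
      refine rank_one (fun i => VV cc (φ i) x x)
        (fun j => conj (VV (fun m => conj (cc m)) (ψ j) x x)) (VV_ne_zero adm_cc x x) ?_
      exact (map_ne_zero _).2 (VV_ne_zero adm_cc.conj x x)⟩
  refine no_factor Sm Sp (fun ξ hξ f hf => ?_) (fun ξ hξ f hf => ?_) h3
  · exact (P_eq_self_iff hξ _).1 (h1 ξ hξ f ((P_eq_self_iff hξ _).2 hf)).2
  · exact (P_eq_zero_iff hξ _).1 (h2 ξ hξ f ((P_eq_zero_iff hξ _).2 hf)).1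

end Pool.Agent.S05366
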