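import Pool.Statements.S06209
import Pool.Agent.Work.MP_cf06ef_an.B19
import Pool.Agent.Work.MP_ca0f09_nt.Main2
import Pool.Agent.Work.MP_ca0f09_nt.Construct
import Pool.Agent.Work.MP_ca0f09_nt.UnifMR

set_option autoImplicit false
open Filter Topology
open Pool Pool.MP_cf06ef_an

namespace Pool.Agent.S06209

/-- two-point Chowla at all scales, from the team's development for MP_ca0f09_nt. -/
theorem ch2 : Pool.Agent.SB.CH2 := fun h hh => by
  have H := Pool.Agent.Work.MP_ca0f09_nt.twoPt_of_free
    (fun h W hh hW ε hε hε1 => Pool.Agent.Work.MP_ca0f09_nt.exists_sys h W hh hW ε hε hε1)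
    (Pool.Agent.Work.MP_ca0f09_nt.free_of_unif Pool.Agent.Work.MP_ca0f09_nt.unif)
    h hh 1 le_rfl (fun _ => 1) (fun _ => by simp) (fun _ => rfl)
  simp only [one_mul] at H
  exact H

/-- For every non-erasing substitution on a finite alphabet, its two-sided subshift is Möbius disjoint: for every continuous f on it and every point x, (1/N)·Σ_{n=1..N} f(Sⁿx)μ(n) tends to 0. -/
theorem result :
    ∀ (k : ℕ) (σ : Fin k → List (Fin k)), (∀ a, σ a ≠ []) →
      ∀ X : Set (ℤ → Fin k),
        X = {x : ℤ → Fin k | ∀ (i : ℤ) (m : ℕ), ∃ (a : Fin k) (n : ℕ),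
              List.IsInfix (List.ofFn (fun j : Fin m => x (i + ((j : ℕ) : ℤ))))
                (Nat.iterate (fun w : List (Fin k) => w.flatMap σ) n [a])} →
        ∀ f : (ℤ → Fin k) → ℂ, ContinuousOn f X →
          ∀ x ∈ X,
            Tendsto (fun N : ℕ => (1 / (N : ℂ)) *
                ∑ n ∈ Finset.Icc 1 N,
                  f (fun i : ℤ => x (i + (n : ℤ))) * ((ArithmeticFunction.moebius n : ℤ) : ℂ))
              atTop (𝓝 0) :=
  fun k σ hσ X hX f hf x hx => Pool.Agent.SB.final ch2 k σ hσ X hX f hf x hx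

end Pool.Agent.S06209
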