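import Pool.Statements.S06377
import Pool.Agent.Work.MP_dbf1ea_an.V.Core
import Pool.Agent.Work.MP_dbf1ea_an.V.Lattice
import Pool.Agent.Work.MP_dbf1ea_an.V.ExLin

set_option autoImplicit false
open scoped Manifold Pointwise
open Pool Pool.MP_dbf1ea_an

namespace Pool.Agent.S06377

/-- For every connected real Lie group with semisimple Lie algebra and every discrete cocompact subgroup Γ, there is a finite generating set and a polynomial bound (1+n)^s on the ℓ² convolution norm of functions supported in the n-ball: property RD. -/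
theorem result :
    ∀ (E : Type) [NormedAddCommGroup E] [NormedSpace ℝ E] [FiniteDimensional ℝ E]
      [CompleteSpace E]
      (G : Type) [TopologicalSpace G] [ChartedSpace E G] [Group G]
      [LieGroup 𝓘(ℝ, E) (minSmoothness ℝ 3) G] [ConnectedSpace G],
      LieAlgebra.IsSemisimple ℝ (GroupLieAlgebra 𝓘(ℝ, E) G) →
      ∀ Γ : Subgroup G, DiscreteTopology Γ → CompactSpace (G ⧸ Γ) →
        ∃ S : Finset Γ, Subgroup.closure (S : Set Γ) = ⊤ ∧
          ∃ C : ℝ, ∃ s : ℕ, ∀ n : ℕ, ∀ f g : Γ →₀ ℂ,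
            (f.support : Set Γ) ⊆ (insert (1 : Γ) ((S : Set Γ) ∪ (S : Set Γ)⁻¹)) ^ n →
            (∑' γ : Γ, ‖∑ h ∈ f.support, f h * g (h⁻¹ * γ)‖ ^ 2)
              ≤ C * (1 + (n : ℝ)) ^ s * (∑' γ : Γ, ‖f γ‖ ^ 2) * (∑' γ : Γ, ‖g γ‖ ^ 2) := by
  intro E _ _ _ _ G _ _ _ _ _ h Γ _ _
  have : IsTopologicalGroup G := topologicalGroup_of_lieGroup 𝓘(ℝ, E) (minSmoothness ℝ 3)
  have : T1Space G := ChartedSpace.t1Space E G
  have : ProperSpace E := FiniteDimensional.proper_real E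
  have : LocallyCompactSpace G := ChartedSpace.locallyCompactSpace E G
  obtain ⟨n, ⟨Λ⟩⟩ := Pool.Agent.Work.MP_dbf1ea_an.V.exists_lin E G h
  obtain ⟨S, hS⟩ := Pool.Agent.Work.MP_dbf1ea_an.V.lat_fg Γ
  exact ⟨S, hS, Pool.Agent.Work.MP_dbf1ea_an.V.core hS
    (Pool.Agent.Work.MP_dbf1ea_an.V.Lin.up Γ Λ S hS)⟩

end Pool.Agent.S06377
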