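import Pool.Statements.S06498
import Pool.Agent.Work.MP_e522c7_an.Main

set_option autoImplicit false
open MeasureTheory
open Pool Pool.MP_e522c7_an

namespace Pool.Agent.S06498

/-- The negation of the preceding statement: In dimension d≥3, Keller–Segel data n0 (nonnegative, continuous, bounded, integrable, finite second moment) with ∬n0n0∣x−y∣^{2−d} > 2dM∣S^{d−1}∣ admit no global classical solution bounded on compact time intervals, i.e. they blow up in finite time. -/
theorem result :
    ¬ (∀ d : ℕ, 3 ≤ d →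
    ∀ n0 : EuclideanSpace ℝ (Fin d) → ℝ,
      Continuous n0 → (∀ x, 0 ≤ n0 x) → (∃ C : ℝ, ∀ x, n0 x ≤ C) →
      Integrable n0 → Integrable (fun x => ‖x‖ ^ 2 * n0 x) →
      (∫ x, ∫ y, n0 x * n0 y / ‖x - y‖ ^ (d - 2)) >
        2 * (d : ℝ) * (∫ x, n0 x) *
          ((d : ℝ) * (volume (Metric.ball (0 : EuclideanSpace ℝ (Fin d)) 1)).toReal) →
      ¬ ∃ n : ℝ → EuclideanSpace ℝ (Fin d) → ℝ,
          n 0 = n0 ∧
          ContinuousOn (fun p : ℝ × EuclideanSpace ℝ (Fin d) => n p.1 p.2)
            (Set.Ici (0 : ℝ) ×ˢ Set.univ) ∧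
          ContDiffOn ℝ 2 (fun p : ℝ × EuclideanSpace ℝ (Fin d) => n p.1 p.2)
            (Set.Ioi (0 : ℝ) ×ˢ Set.univ) ∧
          (∀ t : ℝ, 0 ≤ t → Integrable (n t)) ∧
          (∀ T : ℝ, 0 < T → ∃ C : ℝ, ∀ t ∈ Set.Icc (0 : ℝ) T, ∀ x, |n t x| ≤ C) ∧
          (∀ t : ℝ, 0 < t → ∀ x : EuclideanSpace ℝ (Fin d),
            deriv (fun s => n s x) t =
              (∑ i : Fin d, iteratedFDeriv ℝ 2 (n t) x
                  ![EuclideanSpace.single i (1 : ℝ), EuclideanSpace.single i (1 : ℝ)])
              - fderiv ℝ (n t) x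
                  ((-(1 / ((d : ℝ) *
                      (volume (Metric.ball (0 : EuclideanSpace ℝ (Fin d)) 1)).toReal))) •
                    ∫ y, (n t y / ‖x - y‖ ^ d) • (x - y))
              + n t x ^ 2)) := by
  open Pool.Agent.Work.MP_e522c7_an in
  intro h
  obtain ⟨L, u, g, hL, hu, hpos, hE, hg, hpde⟩ := exists_solution
  have huc := hu.continuous
  refine h 3 le_rfl (fun x => u (1, x)) (by fun_prop) (hpos 1 zero_le_one)
    ⟨1, fun x => (le_abs_self _).trans (hu.bdd hL zero_le_one _)⟩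
    (hu.integrable_slice hL zero_le_one) ?_ ?_
    ⟨fun t x => u (t + 1, x), by simp, Continuous.continuousOn (by fun_prop), ?_, ?_, ?_, ?_⟩
  · refine (integrable_sq_mul_W hL zero_le_one).mono'
      (Continuous.aestronglyMeasurable (by fun_prop)) (Filter.Eventually.of_forall fun x => ?_)
    rw [Real.norm_eq_abs, abs_mul, abs_of_nonneg (sq_nonneg _)]
    exact mul_le_mul_of_nonneg_left (by simpa using hu.bound (1, x)) (sq_nonneg _)
  · simpa [sig] using hE
  · exact (hu.of_succ.contDiff.comp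
      ((contDiff_fst.add contDiff_const).prodMk contDiff_snd)).contDiffOn
  · exact fun t ht => hu.integrable_slice hL (by linarith)
  · exact fun T _ => ⟨1, fun t _ x => hu.bdd hL zero_le_one _⟩
  · intro t ht x
    have h1 := hpde (t + 1, x)
    rw [hg _ (by simp only; linarith), add_zero] at h1
    have h2 := fun i => iteratedFDeriv_space hu.of_succ (t + 1) x i
    have h3 := fun i => Kop_eq hL zero_le_one hu (show 0 ≤ t + 1 by linarith) x i
    simp only [eE] at h2
    rw [deriv_time hu.1, h1, fderiv_space hu.1]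
    simp only [h2, h3, sig, Nat.cast_ofNat]

end Pool.Agent.S06498
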