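import Pool.Statements.S06717
import Pool.Agent.Work.MP_f4b807_an.Final

set_option autoImplicit false
open Set
open Pool Pool.MP_f4b807_an

namespace Pool.Agent.S06717

/-- For every compact K in ℂ and every x₀ in K that is not a peak point for R(K), the uniform closure on K of rational functions with no poles on K, there is a continuous path in K that ends at x₀ and avoids x₀ before its end. -/
theorem result :
    ∀ K : Set ℂ, IsCompact K → ∀ x₀ ∈ K,
      (¬ ∃ f : ℂ → ℂ,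
          (∀ ε : ℝ, 0 < ε → ∃ p q : Polynomial ℂ,
              (∀ z ∈ K, q.eval z ≠ 0) ∧
              ∀ z ∈ K, ‖f z - p.eval z / q.eval z‖ < ε) ∧
          f x₀ = 1 ∧ ∀ x ∈ K, x ≠ x₀ → ‖f x‖ < 1) →
      ∃ γ : ℝ → ℂ, ContinuousOn γ (Icc (0:ℝ) 1) ∧
        (∀ t ∈ Icc (0:ℝ) 1, γ t ∈ K) ∧ γ 1 = x₀ ∧
        ∀ t ∈ Ico (0:ℝ) 1, γ t ≠ x₀ := by
  intro K hK x₀ hx h
  exact Pool.Agent.NonPeak.main hK hx h

end Pool.Agent.S06717
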