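import Pool.Statements.S09276
import Pool.Agent.Work.MP_683e5e_co.Main

set_option autoImplicit false
open Pool Pool.MP_683e5e_co

namespace Pool.Agent.S09276

/-- The negation of the preceding statement: There are t ≥ 2 and finite connected graphs G, H, not both isomorphic to K_t, such that any finite graph F is (G,H)-Ramsey exactly when it is (K_t,K_t)-Ramsey; copies are non-induced subgraphs. -/
theorem result :
    ¬ (∃ t : ℕ, 2 ≤ t ∧
      ∃ (n m : ℕ) (G : SimpleGraph (Fin n)) (H : SimpleGraph (Fin m)),
        G.Connected ∧ H.Connected ∧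
        ¬ (Nonempty (G ≃g (⊤ : SimpleGraph (Fin t))) ∧
            Nonempty (H ≃g (⊤ : SimpleGraph (Fin t)))) ∧
        ∀ (k : ℕ) (F : SimpleGraph (Fin k)),
          ((∀ R : SimpleGraph (Fin k), R ≤ F →
              (∃ f : G →g R, Function.Injective f) ∨
              (∃ f : H →g F \ R, Function.Injective f)) ↔
           (∀ R : SimpleGraph (Fin k), R ≤ F →
              (∃ f : (⊤ : SimpleGraph (Fin t)) →g R, Function.Injective f) ∨
              (∃ f : (⊤ : SimpleGraph (Fin t)) →g F \ R, Function.Injective f)))) := by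
  rintro ⟨t, ht, n, m, G, H, hG, hH, hne, h⟩
  have e : Pool.Agent.Work.MP_683e5e_co.Equi G H t := by
    refine Pool.Agent.Work.MP_683e5e_co.equi_of_fin (fun k F => ?_)
    have := h k F
    simp only [Pool.Agent.Work.MP_683e5e_co.sub_iff_hom,
      Pool.Agent.Work.MP_683e5e_co.sub_top_iff] at this
    exact this
  exact hne ⟨Pool.Agent.Work.MP_683e5e_co.iso_right ht hH hG e.symm,
    Pool.Agent.Work.MP_683e5e_co.iso_right ht hG hH e⟩

end Pool.Agent.S09276
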