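import Pool.Statements.S09795
import Pool.Agent.Work.MP_820bad_co.Bjy4

set_option autoImplicit false
open Pool Pool.MP_820bad_co

namespace Pool.Agent.S09795

open Pool.Agent.Work.MP_820bad_co.BJY in
lemma lv_val {V : Type} [DecidableEq V] (s : Finset (V × V)) (W : Finset V) :
    lv s.val W = ((s.filter fun e => e.1 ∈ W ∧ e.2 ∉ W).card : ℤ) := by
  rw [Finset.card_filter]
  push_cast
  rfl

open Pool.Agent.Work.MP_820bad_co.BJY in
lemma ent_compl {V : Type} [DecidableEq V] [Fintype V] (M : Multiset (V × V)) (W : Finset V) :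
    ent M W = lv M Wᶜ := by
  simp [ent, lv]

open Pool.Agent.Work.MP_820bad_co.BJY in
/-- There is K such that every finite digraph with at least K arcs leaving each nonempty proper vertex set has its arcs split into two disjoint sets, each forming a strongly connected spanning subdigraph. -/
theorem result :
    ∃ K : ℕ, ∀ (V : Type) [Fintype V] (D : Digraph V),
      (∀ S : Set V, S.Nonempty → S ≠ Set.univ →
        K ≤ {p : V × V | p.1 ∈ S ∧ p.2 ∉ S ∧ D.Adj p.1 p.2}.ncard) →
      ∃ A₁ A₂ : V → V → Prop,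
        (∀ u v, D.Adj u v ↔ (A₁ u v ∨ A₂ u v)) ∧
        (∀ u v, ¬ (A₁ u v ∧ A₂ u v)) ∧
        (∀ u v, Relation.ReflTransGen A₁ u v) ∧
        (∀ u v, Relation.ReflTransGen A₂ u v) := by
  classical
  refine ⟨9, fun V _ D h => ?_⟩
  rcases isEmpty_or_nonempty V with hV | ⟨⟨r⟩⟩
  · exact ⟨D.Adj, fun _ _ => False, fun u => isEmptyElim u, fun u => isEmptyElim u,
      fun u => isEmptyElim u, fun u => isEmptyElim u⟩
  set s : Finset (V × V) := Finset.univ.filter fun e => D.Adj e.1 e.2 with hs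
  have hlv : ∀ W : Finset V, W.Nonempty → W ≠ Finset.univ → 9 ≤ lv s.val W := by
    intro W h1 h2
    have h3 := h (W : Set V) (Finset.coe_nonempty.2 h1) (fun h4 => h2 (Finset.coe_eq_univ.1 h4))
    have h5 : {p : V × V | p.1 ∈ (W : Set V) ∧ p.2 ∉ (W : Set V) ∧ D.Adj p.1 p.2} =
        ((s.filter fun e => e.1 ∈ W ∧ e.2 ∉ W : Finset (V × V)) : Set (V × V)) := by
      ext e
      simp only [hs, Set.mem_ofPred_eq, Finset.coe_filter, Finset.mem_filter, Finset.mem_univ,
        true_and, Finset.mem_coe]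
      tauto
    rw [h5, Set.ncard_coe_finset] at h3
    rw [lv_val]
    exact_mod_cast h3
  obtain ⟨A, B, hAB, hA, hB⟩ := two_strong s.val r
    (fun W h1 h2 => by
      rw [ent_compl]
      refine hlv _ ⟨r, Finset.mem_compl.2 h2⟩ (fun h3 => ?_)
      obtain ⟨v, hv⟩ := h1
      have : v ∈ Wᶜ := by rw [h3]; exact Finset.mem_univ v
      exact Finset.mem_compl.1 this hv)
    (fun W h1 h2 => hlv W h1 (fun h3 => h2 (by rw [h3]; exact Finset.mem_univ r)))
  have hnd : (A + B).Nodup := Multiset.nodup_of_le hAB s.nodup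
  have hdisj : Disjoint A B := (Multiset.nodup_add.1 hnd).2.2
  have hadj : ∀ e ∈ A + B, D.Adj e.1 e.2 := by
    intro e he
    have : e ∈ s := Multiset.mem_of_le hAB he
    exact (Finset.mem_filter.1 this).2
  refine ⟨fun u v => (u, v) ∈ A, fun u v => D.Adj u v ∧ (u, v) ∉ A, fun u v => ?_,
    fun u v h' => h'.2.2 h'.1, hA, fun u v => ?_⟩
  · constructor
    · intro h'
      by_cases h'' : (u, v) ∈ A
      · exact Or.inl h''
      · exact Or.inr ⟨h', h''⟩
    · rintro (h' | h')
      · exact hadj (u, v) (Multiset.mem_add.2 (Or.inl h'))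
      · exact h'.1
  · refine rtg_mono (fun x y h' => ?_) (hB u v)
    exact ⟨hadj (x, y) (Multiset.mem_add.2 (Or.inr h')),
      fun h'' => Multiset.disjoint_left.1 hdisj h'' h'⟩

end Pool.Agent.S09795
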