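import Pool.Statements.S09922
import Pool.Agent.Work.MP_880652_co.Count

set_option autoImplicit false
open Classical
open Pool Pool.MP_880652_co

namespace Pool.Agent.S09922

open Pool.Agent.Work.MP_880652_co in
theorem transfer (m : ℕ) (hm : m = 7) (i : ℕ) (F : Fintype (Fin 7 ≃ Fin m))
    (D : ∀ σ : Fin 7 ≃ Fin m,
      DecidablePred (fun p : Fin 7 × Fin 7 => rel p.1 p.2 = true ∧ σ p.1 < σ p.2))
    (E : DecidablePred (fun σ : Fin 7 ≃ Fin m =>
      (@Finset.filter _ (fun p : Fin 7 × Fin 7 => rel p.1 p.2 = true ∧ σ p.1 < σ p.2) (D σ)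
        Finset.univ).card = i)) :
    (@Finset.filter _ (fun σ : Fin 7 ≃ Fin m =>
      (@Finset.filter _ (fun p : Fin 7 × Fin 7 => rel p.1 p.2 = true ∧ σ p.1 < σ p.2) (D σ)
        Finset.univ).card = i) E (@Finset.univ _ F)).card
      = (Finset.univ.filter (fun σ : Equiv.Perm (Fin 7) => g σ = i)).card := by
  subst hm
  congr 1
  ext σ
  simp only [Finset.mem_filter, Finset.mem_univ, true_and]
  rw [← card_pairs σ]
  congr!

/-- The negation of the preceding statement: For every finite poset with k comparable pairs, let a_i count linear orders of its points agreeing with exactly i comparable pairs; then a_0,…,a_k increases weakly up to some index and decreases weakly after it. -/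
theorem result :
    ¬ (∀ (α : Type) [Fintype α] [PartialOrder α] (a : ℕ → ℕ),
      (∀ i : ℕ, a i =
        (Finset.univ.filter (fun σ : α ≃ Fin (Fintype.card α) =>
          (Finset.univ.filter (fun p : α × α => p.1 < p.2 ∧ σ p.1 < σ p.2)).card = i)).card) →
      ∃ m : ℕ,
        (∀ i j : ℕ, i ≤ j → j ≤ m → a i ≤ a j) ∧
        (∀ i j : ℕ, m ≤ i → i ≤ j →
          j ≤ (Finset.univ.filter (fun p : α × α => p.1 < p.2)).card → a j ≤ a i)) := by
  intro h
  obtain ⟨m, h1, h2⟩ := @h (Fin 7) inferInstance Pool.Agent.Work.MP_880652_co.po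
    (fun i => (Finset.univ.filter
      (fun σ : Equiv.Perm (Fin 7) => Pool.Agent.Work.MP_880652_co.g σ = i)).card)
    (fun i => (transfer _ (Fintype.card_fin 7) i _ _ _).symm)
  have c4 := Pool.Agent.Work.MP_880652_co.count4
  have c5 := Pool.Agent.Work.MP_880652_co.count5
  have c6 := Pool.Agent.Work.MP_880652_co.count6
  rcases le_or_gt 5 m with hm | hm
  · have := h1 4 5 (by norm_num) hm
    simp only [c4, c5] at this
    omega
  · have := h2 5 6 (by omega) (by norm_num) (by
      have hk := Pool.Agent.Work.MP_880652_co.card_rel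
      refine le_trans (by norm_num : 6 ≤ 10) (le_of_eq ?_)
      rw [← hk]
      congr!)
    simp only [c5, c6] at this
    omega

end Pool.Agent.S09922
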