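import Pool.Statements.S10023
import Pool.Agent.Work.MP_8c679b_co.A3.KY
import Pool.Agent.Work.MP_8c679b_co.Top.RMain
import Pool.Agent.Work.MP_8c679b_co.Top.RA3
import Pool.Agent.Work.MP_8c679b_co.Top.LPair
import Pool.Agent.Work.MP_8c679b_co.Top.TFs

set_option autoImplicit false
open Pool Pool.MP_8c679b_co

namespace Pool.Agent.S10023

/-- For every finite signed multigraph (loops allowed) that has some nowhere-zero integer flow in the bidirected sense, there is a nowhere-zero integer flow with all values of absolute value less than 6. -/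
theorem result :
    ∀ (n m : ℕ) (s t : Fin m → Fin n) (σ : Fin m → ℤ),
      (∀ e, σ e = 1 ∨ σ e = -1) →
      (∃ f : Fin m → ℤ, (∀ e, f e ≠ 0) ∧
        ∀ x : Fin n, ∑ e, ((if s e = x then f e else 0) - (if t e = x then σ e * f e else 0)) = 0) →
      ∃ f : Fin m → ℤ, (∀ e, f e ≠ 0 ∧ |f e| < 6) ∧
        ∀ x : Fin n, ∑ e, ((if s e = x then f e else 0) - (if t e = x then σ e * f e else 0)) = 0 := by
  exact Pool.Agent.Work.MP_8c679b_co.six_flow fun V E _ _ _ G hc =>
    ⟨Pool.Agent.Work.MP_8c679b_co.SG.a3p_of_d2 hc (Pool.Agent.Work.MP_8c679b_co.SG.d2p hc),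
      Pool.Agent.Work.MP_8c679b_co.SG.pair_l hc, Pool.Agent.Work.MP_8c679b_co.SG.top_l hc⟩

end Pool.Agent.S10023
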