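import Pool.Statements.S10429
import Pool.Agent.Work.MP_9e5f8f_co.Main

set_option autoImplicit false
open Pool Pool.MP_9e5f8f_co

namespace Pool.Agent.S10429

/-- For every n ≥ 5, every tree T on n vertices and every tree S, the number of graph homomorphisms from S to the n-vertex path is at most the number of homomorphisms from S to T. -/
theorem result :
    ∀ n : ℕ, 5 ≤ n → ∀ T : SimpleGraph (Fin n), T.IsTree →
      ∀ m : ℕ, ∀ S : SimpleGraph (Fin m), S.IsTree →
        Nat.card (S →g SimpleGraph.pathGraph n) ≤ Nat.card (S →g T) := by
  intro n hn T hT m S hS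
  exact Pool.Agent.Work.MP_9e5f8f_co.main_result n hn T hT m S hS

end Pool.Agent.S10429
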