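import Pool.Statements.S10658
import Pool.Agent.Work.MP_a8adbc_co.Equi

set_option autoImplicit false
open Pool Pool.MP_a8adbc_co

namespace Pool.Agent.S10658

/-- The negation of the preceding statement: For every finite simple graph G: if G and its complement are both equistable, then G and its complement are both general partition graphs. -/
theorem result :
    ¬ (∀ (V : Type) [Fintype V] (G : SimpleGraph V),
      (∀ H : SimpleGraph V, (H = G ∨ H = Gᶜ) →
        ∃ φ : V → ℝ, (∀ v, 0 < φ v) ∧
          ∀ S : Finset V,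
            (Maximal (fun s : Finset V => H.IsIndepSet (s : Set V)) S ↔ ∑ v ∈ S, φ v = 1)) →
      (∀ H : SimpleGraph V, (H = G ∨ H = Gᶜ) →
        ∃ n : ℕ, ∃ U : V → Finset (Fin n),
          (∀ v, (U v).Nonempty) ∧
          (∀ u v, u ≠ v → (H.Adj u v ↔ ¬ Disjoint (U u) (U v))) ∧
          ∀ S : Finset V, Maximal (fun s : Finset V => H.IsIndepSet (s : Set V)) S →
            (∀ u ∈ S, ∀ v ∈ S, u ≠ v → Disjoint (U u) (U v)) ∧
            S.biUnion U = Finset.univ)) := by
  intro h
  refine Pool.Agent.Work.MP_a8adbc_co.not_gp ?_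
  have h' := h Pool.Agent.Work.MP_a8adbc_co.V Pool.Agent.Work.MP_a8adbc_co.G (by
    rintro H (rfl | rfl)
    · exact Pool.Agent.Work.MP_a8adbc_co.G_equi
    · exact Pool.Agent.Work.MP_a8adbc_co.compl_equi) Pool.Agent.Work.MP_a8adbc_co.G (Or.inl rfl)
  exact h'

end Pool.Agent.S10658
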