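import Pool.Statements.S10738
import Pool.Agent.Work.MP_ac1f36_co.Word

set_option autoImplicit false
open Pool Pool.MP_ac1f36_co
open Pool.Agent.Work.MP_ac1f36_co

namespace Pool.Agent.S10738

/-- The negation of the preceding statement: Every nonempty word over n letters with no equal neighbors and no pattern p q p q p is the left-to-right lower-envelope sequence of some n non-vertical line segments in the plane. -/
theorem result :
    ¬ (∀ (n m : ℕ) (w : Fin m → Fin n), 0 < m →
      (∀ i j : Fin m, i.val + 1 = j.val → w i ≠ w j) →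
      (¬ ∃ (p q : Fin n) (i₁ i₂ i₃ i₄ i₅ : Fin m), p ≠ q ∧ i₁ < i₂ ∧ i₂ < i₃ ∧ i₃ < i₄ ∧
          i₄ < i₅ ∧ w i₁ = p ∧ w i₂ = q ∧ w i₃ = p ∧ w i₄ = q ∧ w i₅ = p) →
      ∃ (a b l r : Fin n → ℝ) (t : Fin (m + 1) → ℝ), StrictMono t ∧ (∀ i, l i < r i) ∧
        (∀ i x, l i ≤ x → x ≤ r i → t 0 ≤ x ∧ x ≤ t (Fin.last m)) ∧
        (∀ k : Fin m, ∃ x, t k.castSucc < x ∧ x < t k.succ ∧ l (w k) ≤ x ∧ x ≤ r (w k)) ∧
        (∀ k : Fin m, ∀ x, t k.castSucc < x → x < t k.succ → ∀ j, l j ≤ x → x ≤ r j →
          (l (w k) ≤ x ∧ x ≤ r (w k) ∧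
            (j ≠ w k → a (w k) * x + b (w k) < a j * x + b j)))) := by
  intro h
  obtain ⟨a, b, l, r, t, ht, -, -, h3, h4⟩ := h 16 42 W (by decide) W_adj W_ds
  choose s hs using h3
  have mono : ∀ i k : Fin 42, i < k → s i < s k := by
    intro i k hik
    have h1 : t i.succ ≤ t k.castSucc := ht.monotone (by
      rw [Fin.le_def, Fin.val_succ, Fin.val_castSucc]; exact hik)
    exact lt_of_lt_of_le (hs i).2.1 (h1.trans (hs k).1.le)
  have key : ∀ (i k j : Fin 42) (p q : Fin 16),
      (i < k ∧ k < j ∧ W i = q ∧ W j = q ∧ W k = p ∧ q ≠ p) →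
      a p * s k + b p < a q * s k + b q := by
    rintro i k j p q ⟨hik, hkj, hi, hj, hk, hne⟩
    have h1 : l q ≤ s k := by
      have := (hs i).2.2.1
      rw [hi] at this
      exact this.trans (mono i k hik).le
    have h2 : s k ≤ r q := by
      have := (hs j).2.2.2
      rw [hj] at this
      exact (mono k j hkj).le.trans this
    have h5 := (h4 k (s k) (hs k).1 (hs k).2.1 q h1 h2).2.2 (by rw [hk]; exact hne)
    rw [hk] at h5
    exact h5
  have e12 : a 4 < a 5 := slope_lt (mono 6 23 (by decide)) (key 5 6 23 5 4 (by decide +kernel)) (key 6 23 27 4 5 (by decide +kernel))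
  have e23 : a 5 < a 6 := slope_lt (mono 10 21 (by decide)) (key 6 10 27 6 5 (by decide +kernel)) (key 10 21 28 5 6 (by decide +kernel))
  have e45 : a 8 < a 9 := slope_lt (mono 20 31 (by decide)) (key 13 20 31 9 8 (by decide +kernel)) (key 14 31 35 8 9 (by decide +kernel))
  have e56 : a 9 < a 10 := slope_lt (mono 18 35 (by decide)) (key 14 18 35 10 9 (by decide +kernel)) (key 18 35 36 9 10 (by decide +kernel))
  have hl := half
    (mono 1 3 (by decide))
    (mono 3 5 (by decide))
    (mono 5 7 (by decide))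
    (mono 7 9 (by decide))
    (mono 9 10 (by decide))
    (mono 10 12 (by decide))
    (mono 12 13 (by decide))
    (mono 13 15 (by decide))
    (mono 15 17 (by decide))
    (mono 17 18 (by decide))
    (mono 18 20 (by decide))
    (mono 10 21 (by decide))
    e12
    e23
    e45
    e56
    (key 0 1 8 1 0 (by decide +kernel))
    (key 1 3 12 0 1 (by decide +kernel))
    (key 2 3 16 0 2 (by decide +kernel))
    (key 4 5 17 4 3 (by decide +kernel))
    (key 0 7 8 3 0 (by decide +kernel))
    (key 2 7 16 3 2 (by decide +kernel))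
    (key 5 7 23 3 4 (by decide +kernel))
    (key 6 7 27 3 5 (by decide +kernel))
    (key 1 9 12 2 1 (by decide +kernel))
    (key 4 9 17 2 3 (by decide +kernel))
    (key 4 10 17 6 3 (by decide +kernel))
    (key 2 12 16 1 2 (by decide +kernel))
    (key 11 12 19 1 7 (by decide +kernel))
    (key 11 13 19 8 7 (by decide +kernel))
    (key 2 15 16 7 2 (by decide +kernel))
    (key 4 15 17 7 3 (by decide +kernel))
    (key 13 15 31 7 8 (by decide +kernel))
    (key 14 15 35 7 9 (by decide +kernel))
    (key 11 17 19 3 7 (by decide +kernel))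
    (key 11 18 19 10 7 (by decide +kernel))
    (key 13 20 31 9 8 (by decide +kernel))
    (key 18 20 36 9 10 (by decide +kernel))
    (key 5 21 23 5 4 (by decide +kernel))
    (key 10 21 28 5 6 (by decide +kernel))
  have hr := half
    (neg_lt_neg (mono 38 40 (by decide)))
    (neg_lt_neg (mono 36 38 (by decide)))
    (neg_lt_neg (mono 34 36 (by decide)))
    (neg_lt_neg (mono 32 34 (by decide)))
    (neg_lt_neg (mono 31 32 (by decide)))
    (neg_lt_neg (mono 29 31 (by decide)))
    (neg_lt_neg (mono 28 29 (by decide)))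
    (neg_lt_neg (mono 26 28 (by decide)))
    (neg_lt_neg (mono 24 26 (by decide)))
    (neg_lt_neg (mono 23 24 (by decide)))
    (neg_lt_neg (mono 21 23 (by decide)))
    (neg_lt_neg (mono 20 31 (by decide)))
    (neg_lt_neg e56)
    (neg_lt_neg e45)
    (neg_lt_neg e23)
    (neg_lt_neg e12)
    (mir (key 33 40 41 14 15 (by decide +kernel)))
    (mir (key 29 38 40 15 14 (by decide +kernel)))
    (mir (key 25 38 39 15 13 (by decide +kernel)))
    (mir (key 24 36 37 10 12 (by decide +kernel)))
    (mir (key 33 34 41 12 15 (by decide +kernel)))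
    (mir (key 25 34 39 12 13 (by decide +kernel)))
    (mir (key 18 34 36 12 10 (by decide +kernel)))
    (mir (key 14 34 35 12 9 (by decide +kernel)))
    (mir (key 29 32 40 13 14 (by decide +kernel)))
    (mir (key 24 32 37 13 12 (by decide +kernel)))
    (mir (key 24 31 37 8 12 (by decide +kernel)))
    (mir (key 25 29 39 14 13 (by decide +kernel)))
    (mir (key 22 29 30 14 11 (by decide +kernel)))
    (mir (key 22 28 30 6 11 (by decide +kernel)))
    (mir (key 25 26 39 11 13 (by decide +kernel)))
    (mir (key 24 26 37 11 12 (by decide +kernel)))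
    (mir (key 10 26 28 11 6 (by decide +kernel)))
    (mir (key 6 26 27 11 5 (by decide +kernel)))
    (mir (key 22 24 30 12 11 (by decide +kernel)))
    (mir (key 22 23 30 4 11 (by decide +kernel)))
    (mir (key 10 21 28 5 6 (by decide +kernel)))
    (mir (key 5 21 23 5 4 (by decide +kernel)))
    (mir (key 18 20 36 9 10 (by decide +kernel)))
    (mir (key 13 20 31 9 8 (by decide +kernel)))
  nlinarith

end Pool.Agent.S10738
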