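import Pool.Statements.S11277
import Pool.Agent.Lib.PRank.Final

set_option autoImplicit false
open Pool Pool.MP_c3ac7c_co

namespace Pool.Agent.S11277

/-- For every d ≥ 2 and finite field F there is C such that every d-linear form T over F is a sum of at most C·AR(T) products of multilinear forms on complementary nonempty proper variable sets, AR being −log_q of the bias. -/
theorem result :
  ∀ (d : ℕ) (F : Type) [Field F] [Fintype F], ∃ C : ℝ, ∀ (n : Fin (d+2) → ℕ)
    (T : MultilinearMap F (fun i : Fin (d+2) => Fin (n i) → F) F),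
    ∃ r : ℕ, (r : ℝ) ≤ C * (-Real.logb (Fintype.card F : ℝ)
        ((Nat.card {x : (i : Fin (d+2)) → Fin (n i) → F //
            ∀ y : Fin (n 0) → F, T (Function.update x 0 y) = 0} : ℝ) /
          (Nat.card ((i : Fin (d+2)) → Fin (n i) → F) : ℝ))) ∧
      ∃ S : Fin r → Finset (Fin (d+2)),
      ∃ a : (k : Fin r) → MultilinearMap F (fun j : {j // j ∈ S k} => Fin (n j.1) → F) F,
      ∃ b : (k : Fin r) → MultilinearMap F (fun j : {j // j ∉ S k} => Fin (n j.1) → F) F,
      (∀ k, (S k).Nonempty ∧ S k ≠ Finset.univ) ∧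
      ∀ x : (i : Fin (d+2)) → Fin (n i) → F,
        T x = ∑ k, a k (fun j => x j.1) * b k (fun j => x j.1) := by
  intro d F _ _
  obtain ⟨C, hC⟩ := Pool.Agent.Lib.PRank.exists_gen_real (d + 1) F
  refine ⟨C, fun n T => ?_⟩
  let t : (∀ i : Fin (d + 2), Fin (n i)) → F := fun a => T fun i => Pi.single (a i) 1
  have hT : ∀ x, T x = Pool.Agent.Lib.PRank.mlOf t x := Pool.Agent.Lib.PRank.eq_mlOf T
  have : Nonempty {i : Fin (d + 2) // i ≠ 0} := ⟨⟨1, by simp⟩⟩
  obtain ⟨r, hr, hG⟩ := hC {i : Fin (d + 2) // i ≠ 0} _ (Fin (n 0)) Sigma.fst (by simp)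
    (Pool.Agent.Lib.PRank.slices 0 t) (Pool.Agent.Lib.PRank.isML_slices 0 t)
  obtain ⟨S, f, g, hS, hfg⟩ := (Pool.Agent.Lib.PRank.apr_iff_gen 0 t r).mpr hG
  refine ⟨r, ?_, S, fun k => Pool.Agent.Lib.PRank.mlOf (f k),
    fun k => Pool.Agent.Lib.PRank.mlOf (g k), hS, fun x => ?_⟩
  · simp only [hT]
    rw [Pool.Agent.Lib.PRank.card_zero_eq,
      Nat.card_congr (Pool.Agent.Lib.PRank.splitEquiv F (fun i => Fin (n i)) 0), Nat.card_prod,
      Nat.cast_mul, Nat.cast_mul, mul_div_mul_right _ _ (by exact_mod_cast Nat.card_pos.ne')]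
    exact hr
  · have h1 : T x = ∑ k, Pool.Agent.Lib.PRank.mlOf
        (fun a => f k (fun i => a i.1) * g k (fun i => a i.1)) x := by
      simp only [hT, Pool.Agent.Lib.PRank.mlOf_apply, hfg, Finset.sum_mul]
      rw [Finset.sum_comm]
    rw [h1]
    refine Finset.sum_congr rfl fun k _ => ?_
    convert Pool.Agent.Lib.PRank.mlOf_mul (fun i => i ∈ S k) (f k) (g k) x

end Pool.Agent.S11277
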