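import Pool.Statements.S11309
import Pool.Agent.Work.MP_c4c804_co.Params

set_option autoImplicit false
open Nc949c4d7
open Asymptotics Filter
open scoped Pointwise
open Pool Pool.MP_c4c804_co

namespace Pool.Agent.S11309

open Pool.Agent.Work.MP_c4c804_co in
/-- Sets of size about 10 log p have a dilate with a gap 100 times the average gap. -/
theorem result :
    (∀ ω : ℕ → ℝ, ω ~[atTop] (fun p ↦ 10 * Real.log p) → HasLargeGapDilate ω) := by
  intro ω hω
  obtain ⟨n0, hn0⟩ := core 700 11 (by norm_num) (by norm_num)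
  have hlog : Tendsto (fun p : ℕ ↦ Real.log p) atTop atTop :=
    Real.tendsto_log_atTop.comp tendsto_natCast_atTop_atTop
  have htop : Tendsto ω atTop atTop :=
    hω.symm.tendsto_atTop (hlog.const_mul_atTop (by norm_num))
  have hb := hω.isLittleO.bound (show (0 : ℝ) < 1 / 10 by norm_num)
  have hlo := (Real.isLittleO_log_id_atTop.comp_tendsto
    (tendsto_natCast_atTop_atTop (R := ℝ))).bound (show (0 : ℝ) < 1 / 12 by norm_num)
  unfold HasLargeGapDilate
  filter_upwards [hb, hlo, htop.eventually_gt_atTop 100, htop.eventually_ge_atTop n0]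
    with p h1 h2 h3 h4 hp
  have : NeZero p := ⟨hp.ne_zero⟩
  have : Fact p.Prime := ⟨hp⟩
  have hp0 : (0 : ℝ) < p := by exact_mod_cast hp.pos
  have hl0 : 0 ≤ Real.log p := Real.log_natCast_nonneg p
  have h5 : ω p ≤ 11 * Real.log p := by
    simp only [Pi.sub_apply, Real.norm_eq_abs] at h1
    rw [abs_of_nonneg (show 0 ≤ 10 * Real.log p by positivity)] at h1
    linarith [(abs_le.mp h1).2]
  have h6 : Real.log p ≤ 1 / 12 * p := by
    simp only [Function.comp, id, Real.norm_eq_abs] at h2
    rwa [abs_of_nonneg hl0, abs_of_nonneg hp0.le] at h2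
  refine ⟨h3, by linarith, fun A hA => ?_⟩
  have hfl : (A.card : ℝ) ≤ ω p := by rw [hA]; exact Nat.floor_le (by linarith)
  have hn : n0 ≤ A.card := by rw [hA]; exact Nat.le_floor h4
  have hn1 : (1 : ℝ) ≤ A.card := by
    have : 1 ≤ A.card := by rw [hA]; exact Nat.le_floor (by push_cast; linarith)
    exact_mod_cast this
  obtain ⟨c, hc, t, ht⟩ := hn0 A.card hn p hp (hfl.trans h5) (fun i => (A.equivFin.symm i : ZMod p))
  refine ⟨Units.mk0 c hc, t, fun j hj hmem => ?_⟩
  obtain ⟨a, ha, hac⟩ := Finset.mem_smul_finset.mp hmem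
  have h7 := ht (A.equivFin ⟨a, ha⟩)
  simp only [Equiv.symm_apply_apply] at h7
  have e : a * c - t = (((j : ℕ) : ℤ) : ZMod p) := by
    rw [Units.smul_mk0, smul_eq_mul] at hac
    rw [mul_comm, hac]; push_cast; ring
  rw [e] at h7
  have h8 := chord_intCast_le (p := p) (j : ℤ)
  have h9 : (j : ℝ) ≤ 100 * p / ω p :=
    le_trans (by exact_mod_cast hj.le) (Nat.floor_le (by positivity))
  have h10 : 100 * (p : ℝ) / ω p ≤ 100 * p / A.card := by gcongr
  have h11 : 7 * |((j : ℤ) : ℝ)| / p ≤ 700 / A.card := by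
    rw [Int.cast_natCast, abs_of_nonneg (Nat.cast_nonneg _), div_le_iff₀ hp0]
    have : 700 / (A.card : ℝ) * p = 7 * (100 * p / A.card) := by ring
    linarith
  linarith

end Pool.Agent.S11309
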