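import Pool.Statements.S11625
import Pool.Agent.Work.MP_d266e7_co.Full.Final

set_option autoImplicit false
open Pool Pool.MP_d266e7_co

namespace Pool.Agent.S11625

/-- For every 5-uniform hypergraph with n vertices and m edges, some vertex set meeting every edge has size at most (9n+7m)/44, i.e. the transversal number is at most (9n+7m)/44. -/
theorem result :
    ∀ n : ℕ, ∀ E : Finset (Finset (Fin n)), (∀ e ∈ E, e.card = 5) →
      ∃ T : Finset (Fin n), (∀ e ∈ E, (e ∩ T).Nonempty) ∧
        44 * T.card ≤ 9 * n + 7 * E.card :=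
  Pool.Agent.Work.MP_d266e7_co.Mix.top_of_cstar (by omega)
    Pool.Agent.Work.MP_d266e7_co.Mix.cstar_final

end Pool.Agent.S11625
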