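import Pool.Statements.S13070
import Pool.Agent.Work.MP_3fb46c_gt.Main

set_option autoImplicit false
open Pool Pool.MP_3fb46c_gt

namespace Pool.Agent.S13070

/-- The negation of the preceding statement: Every smooth tangent field of constant length r>0 on the unit sphere in R^(2m+2) whose graph is volume-critical in the radius-r tangent sphere bundle with Sasaki metric equals r·J x for some skew complex structure J. -/
theorem result :
    ¬ (∀ (m : ℕ) (r : ℝ) (σ : EuclideanSpace ℝ (Fin (2 * m + 2)) → EuclideanSpace ℝ (Fin (2 * m + 2))),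
      0 < r →
      ContDiff ℝ ((⊤ : ℕ∞) : WithTop ℕ∞) σ →
      (∀ x ∈ Metric.sphere (0 : EuclideanSpace ℝ (Fin (2 * m + 2))) 1,
          ‖σ x‖ = r ∧ inner ℝ x (σ x) = 0) →
      (∀ Φ : ℝ → EuclideanSpace ℝ (Fin (2 * m + 2)) → EuclideanSpace ℝ (Fin (2 * m + 2)),
          ContDiff ℝ ((⊤ : ℕ∞) : WithTop ℕ∞)
            (fun p : ℝ × EuclideanSpace ℝ (Fin (2 * m + 2)) => Φ p.1 p.2) →
          (∀ x ∈ Metric.sphere (0 : EuclideanSpace ℝ (Fin (2 * m + 2))) 1, Φ 0 x = σ x) →
          (∀ t : ℝ, ∀ x ∈ Metric.sphere (0 : EuclideanSpace ℝ (Fin (2 * m + 2))) 1,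
              ‖Φ t x‖ = r ∧ inner ℝ x (Φ t x) = 0) →
          deriv (fun t : ℝ =>
              ∫ x : Metric.sphere (0 : EuclideanSpace ℝ (Fin (2 * m + 2))) 1,
                Real.sqrt (LinearMap.det
                  ((ContinuousLinearMap.id ℝ (EuclideanSpace ℝ (Fin (2 * m + 2))) +
                    (ContinuousLinearMap.adjoint
                      ((ContinuousLinearMap.id ℝ (EuclideanSpace ℝ (Fin (2 * m + 2))) -
                          (innerSL ℝ (x : EuclideanSpace ℝ (Fin (2 * m + 2)))).smulRight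
                            (x : EuclideanSpace ℝ (Fin (2 * m + 2)))) ∘L
                        fderiv ℝ (Φ t) (x : EuclideanSpace ℝ (Fin (2 * m + 2))) ∘L
                        (ContinuousLinearMap.id ℝ (EuclideanSpace ℝ (Fin (2 * m + 2))) -
                          (innerSL ℝ (x : EuclideanSpace ℝ (Fin (2 * m + 2)))).smulRight
                            (x : EuclideanSpace ℝ (Fin (2 * m + 2)))))) ∘L
                    ((ContinuousLinearMap.id ℝ (EuclideanSpace ℝ (Fin (2 * m + 2))) -
                          (innerSL ℝ (x : EuclideanSpace ℝ (Fin (2 * m + 2)))).smulRight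
                            (x : EuclideanSpace ℝ (Fin (2 * m + 2)))) ∘L
                        fderiv ℝ (Φ t) (x : EuclideanSpace ℝ (Fin (2 * m + 2))) ∘L
                        (ContinuousLinearMap.id ℝ (EuclideanSpace ℝ (Fin (2 * m + 2))) -
                          (innerSL ℝ (x : EuclideanSpace ℝ (Fin (2 * m + 2)))).smulRight
                            (x : EuclideanSpace ℝ (Fin (2 * m + 2))))) :
                    EuclideanSpace ℝ (Fin (2 * m + 2)) →L[ℝ] EuclideanSpace ℝ (Fin (2 * m + 2))) :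
                    EuclideanSpace ℝ (Fin (2 * m + 2)) →ₗ[ℝ] EuclideanSpace ℝ (Fin (2 * m + 2))))
                ∂((MeasureTheory.volume :
                    MeasureTheory.Measure (EuclideanSpace ℝ (Fin (2 * m + 2)))).toSphere)) 0 = 0) →
      ∃ J : EuclideanSpace ℝ (Fin (2 * m + 2)) →L[ℝ] EuclideanSpace ℝ (Fin (2 * m + 2)),
        J ∘L J = -ContinuousLinearMap.id ℝ (EuclideanSpace ℝ (Fin (2 * m + 2))) ∧
        (∀ v, inner ℝ (J v) v = 0) ∧
        ∀ x ∈ Metric.sphere (0 : EuclideanSpace ℝ (Fin (2 * m + 2))) 1, σ x = r • J x) := by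
  intro h
  obtain ⟨r, σ, hr, hσ, h1, h2, h3⟩ := Pool.Agent.Work.MP_3fb46c_gt.exists_nonHopf
  obtain ⟨J, -, -, hJ⟩ := h 2 r σ hr hσ h1 h2
  exact h3 J hJ

end Pool.Agent.S13070
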