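import Pool.Statements.S13479
import Pool.Agent.Work.MP_8493f1_gt.H31Main

set_option autoImplicit false
open Pool Pool.MP_8493f1_gt

namespace Pool.Agent.S13479

/-- For every compact connected metric space X: if each connected C in X×X with both projections equal to X has points (x,y) with d(x,y) arbitrarily small, then the same holds for each connected C in X×X whose two projections are merely equal. -/
theorem result :
    ∀ (X : Type) [MetricSpace X] [CompactSpace X] [ConnectedSpace X],
      (∀ C : Set (X × X), IsConnected C →
          Prod.fst '' C = Set.univ → Prod.snd '' C = Set.univ →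
          ∀ ε : ℝ, 0 < ε → ∃ p ∈ C, dist p.1 p.2 < ε) →
      (∀ C : Set (X × X), IsConnected C →
          Prod.fst '' C = Prod.snd '' C →
          ∀ ε : ℝ, 0 < ε → ∃ p ∈ C, dist p.1 p.2 < ε) := by
  intro X _ _ _ h C hC e ε hε
  exact Pool.Agent.Work.MP_8493f1_gt.semi_of_surj
    (Pool.Agent.Work.MP_8493f1_gt.noFlip_of h).hw hε
    (fun D d1 d2 d3 => h D d1 d2 d3 _ (by positivity)) hC e.symm.subset

end Pool.Agent.S13479
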