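import Pool.Statements.S13568
import Pool.Agent.Work.MP_8f8a35_gt.Main

set_option autoImplicit false
open Pool Pool.MP_8f8a35_gt

namespace Pool.Agent.S13568

/-- The negation of the preceding statement: For every d ≥ 3, every spherical simplex in S^d with all dihedral angles rational multiples of pi has volume a rational multiple of vol(S^d), measured as cone-in-unit-ball volume over unit-ball volume. -/
theorem result :
    ¬ (∀ d : ℕ, 3 ≤ d →
      ∀ n : Fin (d + 1) → EuclideanSpace ℝ (Fin (d + 1)),
        LinearIndependent ℝ n →
        (∀ i j : Fin (d + 1), i ≠ j →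
          ∃ q : ℚ, InnerProductGeometry.angle (n i) (n j) = (q : ℝ) * Real.pi) →
        ∃ r : ℚ,
          (MeasureTheory.volume
              {x : EuclideanSpace ℝ (Fin (d + 1)) |
                ‖x‖ ≤ 1 ∧ ∀ i, 0 ≤ inner ℝ (n i) x}).toReal
            = (r : ℝ) *
              (MeasureTheory.volume
                (Metric.closedBall (0 : EuclideanSpace ℝ (Fin (d + 1))) 1)).toReal) := by
  intro h
  exact Pool.Agent.CS5.not_hyp (h 5 (by norm_num))

end Pool.Agent.S13568
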