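import Pool.Statements.S13877
import Pool.Agent.Work.MP_c146e2_gt.KG.Fin

set_option autoImplicit false
open Pool Pool.MP_c146e2_gt

namespace Pool.Agent.S13877

/-- Some polygonal knot K in 3-space has a knot group generated by n elements, with n smaller than every g for which some polygonal graph containing K has complement homeomorphic to that of a planar chain of g circles; i.e. rank < Heegaard genus of the exterior. -/
theorem result :
    ∃ K : Set (ℝ × ℝ × ℝ),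
      (∃ S : Finset ((ℝ × ℝ × ℝ) × (ℝ × ℝ × ℝ)), K = ⋃ p ∈ S, segment ℝ p.1 p.2) ∧
      Nonempty (K ≃ₜ Circle) ∧
      ∃ x : (Kᶜ : Set (ℝ × ℝ × ℝ)), ∃ n : ℕ,
        (∃ f : Fin n → FundamentalGroup (Kᶜ : Set (ℝ × ℝ × ℝ)) x,
          Subgroup.closure (Set.range f) = ⊤) ∧
        ∀ Γ : Set (ℝ × ℝ × ℝ), ∀ g : ℕ,
          (∃ T : Finset ((ℝ × ℝ × ℝ) × (ℝ × ℝ × ℝ)), Γ = ⋃ p ∈ T, segment ℝ p.1 p.2) →
          K ⊆ Γ →
          Nonempty ((Γᶜ : Set (ℝ × ℝ × ℝ)) ≃ₜ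
            (({y : ℝ × ℝ × ℝ | y.2.2 = 0 ∧ ∃ i : ℕ, i < g ∧
                (y.1 - (2 * (i : ℝ) + 1)) ^ 2 + y.2.1 ^ 2 = 1}ᶜ : Set (ℝ × ℝ × ℝ)))) →
          n < g :=
  KG.final

end Pool.Agent.S13877
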