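import Pool.Statements.S13957
import Pool.Agent.Work.MP_ccba48_gt.Main

set_option autoImplicit false
open Pool Pool.MP_ccba48_gt

namespace Pool.Agent.S13957

/-- For every n ≥ 1, the infimum of the sum of Euclidean norms of finitely many points whose convex hull contains the closed unit ball of ℝⁿ equals 2·n^(3/2). -/
theorem result :
    ∀ n : ℕ, 1 ≤ n →
      IsGLB
        {s : ℝ | ∃ P : Finset (EuclideanSpace ℝ (Fin n)),
            Metric.closedBall (0 : EuclideanSpace ℝ (Fin n)) 1 ⊆ convexHull ℝ (↑P : Set (EuclideanSpace ℝ (Fin n))) ∧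
            s = ∑ p ∈ P, ‖p‖}
        (2 * (n : ℝ) ^ ((3 : ℝ) / 2)) := by
  intro n hn
  rw [Pool.Agent.Work.MP_ccba48_gt.rpow_three_halves, ← mul_assoc]
  constructor
  · rintro s ⟨P, hP, rfl⟩
    exact Pool.Agent.Work.MP_ccba48_gt.lower_hull hn P hP
  · intro c hc
    obtain ⟨P, hP, hle⟩ := Pool.Agent.Work.MP_ccba48_gt.cross_polytope hn
    exact le_trans (hc ⟨P, hP, rfl⟩) hle

end Pool.Agent.S13957
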