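import Pool.Statements.S14104
import Pool.Agent.Work.MP_df5cf0_gt.Top

set_option autoImplicit false
open Pool Pool.MP_df5cf0_gt

namespace Pool.Agent.S14104

/-- The negation of the preceding statement: Every nondegenerate compact path-connected homogeneous metric space not homeomorphic to the circle contains, for each ε>0, an embedded circle of diameter less than ε. -/
theorem result :
    ¬ (∀ (X : Type) [MetricSpace X] [CompactSpace X] [PathConnectedSpace X] [Nontrivial X],
      (∀ x y : X, ∃ h : X ≃ₜ X, h x = y) →
      IsEmpty (X ≃ₜ Circle) →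
      ∀ ε : ℝ, 0 < ε →
        ∃ f : Circle → X, Continuous f ∧ Function.Injective f ∧
          Metric.diam (Set.range f) < ε) := by
  intro h
  obtain ⟨ε, hε, hno⟩ := Pool.Agent.Work.MP_df5cf0_gt.no_small_circle
  obtain ⟨f, hf, hi, hd⟩ := h Pool.Agent.Work.MP_df5cf0_gt.XX
    Pool.Agent.Work.MP_df5cf0_gt.homogeneous Pool.Agent.Work.MP_df5cf0_gt.not_circle ε hε
  exact hno f hf hi hd

end Pool.Agent.S14104
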