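import Pool.Statements.S14453
import Pool.Agent.Work.MP_20d0cc_lc.Comp

set_option autoImplicit false
open Pool Pool.MP_20d0cc_lc

namespace Pool.Agent.S14453

/-- Every graph on ℕ with a computable neighbour-list function and all degrees at most Δ has a computable proper edge colouring using colours 0..Δ, i.e. at most Δ+1 colours. -/
theorem result :
    ∀ (G : SimpleGraph ℕ) (nbrs : ℕ → List ℕ), Computable nbrs →
      (∀ x y : ℕ, G.Adj x y ↔ y ∈ nbrs x) →
      ∀ Δ : ℕ, (∀ (x : ℕ) (s : Finset ℕ), (∀ y ∈ s, G.Adj x y) → s.card ≤ Δ) →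
        ∃ c : ℕ → ℕ → ℕ, Computable₂ c ∧
          (∀ x y : ℕ, G.Adj x y → c x y = c y x ∧ c x y ≤ Δ) ∧
          ∀ x y z : ℕ, G.Adj x y → G.Adj x z → y ≠ z → c x y ≠ c x z := by
  intro G nbrs hnb hG Δ hΔ
  exact Pool.Agent.Work.MP_20d0cc_lc.computable_vizing G nbrs hnb hG Δ hΔ

end Pool.Agent.S14453
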