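import Pool.Statements.S14924
import Pool.Agent.Work.MP_76e736_lc.Main

set_option autoImplicit false
open Pool Pool.MP_76e736_lc

namespace Pool.Agent.S14924

/-- The negation of the preceding statement: Every language accepted by a two-way linear cellular array with boundary states and leftmost-cell acceptance (no time bound) is accepted by some such array that accepts each accepted input within c·n steps, for some constant c. -/
theorem result :
    ¬ (∀ (k m : ℕ) (init : Fin k → Fin m)
      (δ : Option (Fin m) → Option (Fin m) → Option (Fin m) → Fin m)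
      (F : Finset (Fin m)),
    ∃ (m' : ℕ) (init' : Fin k → Fin m')
      (δ' : Option (Fin m') → Option (Fin m') → Option (Fin m') → Fin m')
      (F' : Finset (Fin m')) (c : ℕ),
    ∀ w : List (Fin k),
      ((∃ t : ℕ, ∃ q ∈ F,
          Nat.iterate
            (fun (cfg : ℕ → Option (Fin m)) (i : ℕ) =>
              if 1 ≤ i ∧ i ≤ w.length then some (δ (cfg (i - 1)) (cfg i) (cfg (i + 1))) else none)
            t
            (fun i : ℕ => if 1 ≤ i then (w[i - 1]?).map init else none) 1 = some q)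
        ↔
       (∃ t : ℕ, ∃ q ∈ F',
          Nat.iterate
            (fun (cfg : ℕ → Option (Fin m')) (i : ℕ) =>
              if 1 ≤ i ∧ i ≤ w.length then some (δ' (cfg (i - 1)) (cfg i) (cfg (i + 1))) else none)
            t
            (fun i : ℕ => if 1 ≤ i then (w[i - 1]?).map init' else none) 1 = some q)) ∧
      ((∃ t : ℕ, ∃ q ∈ F',
          Nat.iterate
            (fun (cfg : ℕ → Option (Fin m')) (i : ℕ) =>
              if 1 ≤ i ∧ i ≤ w.length then some (δ' (cfg (i - 1)) (cfg i) (cfg (i + 1))) else none)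
            t
            (fun i : ℕ => if 1 ≤ i then (w[i - 1]?).map init' else none) 1 = some q) →
       (∃ t : ℕ, t ≤ c * w.length ∧ ∃ q ∈ F',
          Nat.iterate
            (fun (cfg : ℕ → Option (Fin m')) (i : ℕ) =>
              if 1 ≤ i ∧ i ≤ w.length then some (δ' (cfg (i - 1)) (cfg i) (cfg (i + 1))) else none)
            t
            (fun i : ℕ => if 1 ≤ i then (w[i - 1]?).map init' else none) 1 = some q))) := by
  classical
  intro H
  obtain ⟨D, hD, δD, iniD, FD, hdiag⟩ := Pool.Agent.Work.MP_76e736_lc.diag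
  let eS := Fintype.equivFin Pool.Agent.Work.MP_76e736_lc.Sym
  let eD := Fintype.equivFin D
  obtain ⟨m', init', δ', F', c, hM⟩ := H _ _ (eD ∘ (iniD ∘ eS.symm))
    (fun a b c => eD (δD (a.map eD.symm) (b.map eD.symm) (c.map eD.symm)))
    (Finset.univ.filter (fun q => FD (eD.symm q)))
  obtain ⟨w, T, hT, hw⟩ := hdiag (Fin m') δ' (init' ∘ eS) (fun q => q ∈ F') c
  obtain ⟨h1, h2⟩ := hM (w.map eS)
  have eM : ∀ t, (∃ q ∈ F', Pool.Agent.Work.MP_76e736_lc.caCfg δ' init' (w.map eS) t 1 = some q) ↔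
      Pool.Agent.Work.MP_76e736_lc.caAccAt δ' (init' ∘ eS) (fun q => q ∈ F') w t := by
    intro t
    rw [Pool.Agent.Work.MP_76e736_lc.caCfg_map_input]
    rfl
  have eDD : ∀ t, (∃ q ∈ Finset.univ.filter (fun q => FD (eD.symm q)),
      Pool.Agent.Work.MP_76e736_lc.caCfg
        (fun a b c => eD (δD (a.map eD.symm) (b.map eD.symm) (c.map eD.symm)))
        (eD ∘ (iniD ∘ eS.symm)) (w.map eS) t 1 = some q) ↔
      Pool.Agent.Work.MP_76e736_lc.caAccAt δD iniD FD w t := by
    intro t
    rw [Pool.Agent.Work.MP_76e736_lc.caCfg_equiv, Pool.Agent.Work.MP_76e736_lc.caCfg_map_input]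
    have : (iniD ∘ eS.symm) ∘ eS = iniD := by
      funext a
      simp
    rw [this]
    unfold Pool.Agent.Work.MP_76e736_lc.caAccAt
    constructor
    · rintro ⟨q, hq, h⟩
      obtain ⟨q', h', rfl⟩ := Option.map_eq_some_iff.1 h
      exact ⟨q', by simpa using hq, h'⟩
    · rintro ⟨q, hq, h⟩
      exact ⟨eD q, by simpa using hq, by rw [h]; rfl⟩
  have k1 : (∃ t, Pool.Agent.Work.MP_76e736_lc.caAccAt δD iniD FD w t) ↔
      ∃ t, Pool.Agent.Work.MP_76e736_lc.caAccAt δ' (init' ∘ eS) (fun q => q ∈ F') w t := by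
    simp only [← eM, ← eDD]
    exact h1
  have k2 : (∃ t, Pool.Agent.Work.MP_76e736_lc.caAccAt δ' (init' ∘ eS) (fun q => q ∈ F') w t) →
      ∃ t, t ≤ c * w.length ∧
        Pool.Agent.Work.MP_76e736_lc.caAccAt δ' (init' ∘ eS) (fun q => q ∈ F') w t := by
    simp only [← eM]
    rw [← List.length_map eS]
    exact h2
  by_cases hacc : ∃ t, t ≤ T ∧
      Pool.Agent.Work.MP_76e736_lc.caAccAt δ' (init' ∘ eS) (fun q => q ∈ F') w t
  · obtain ⟨t, ht, h⟩ := hacc
    exact (hw.1 (k1.2 ⟨t, h⟩)) ⟨t, ht, h⟩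
  · obtain ⟨t, ht, h⟩ := k2 (k1.1 (hw.2 hacc))
    exact hacc ⟨t, ht.trans hT, h⟩

end Pool.Agent.S14924
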