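import Pool.Statements.S15088
import Pool.Agent.Work.MP_97f157_lc_C.Final

set_option autoImplicit false
open Pool Pool.MP_97f157_lc

namespace Pool.Agent.S15088

/-- The negation of the preceding statement: There is a fixed c such that any nonzero real polynomial written as a sum of k products of m polynomials, each with at most t monomials, has at most (kmt+2)^c distinct real roots. -/
theorem result :
    ¬ (∃ c : ℕ, ∀ (k m t : ℕ) (F : Fin k → Fin m → Polynomial ℝ),
      (∀ i j, (F i j).support.card ≤ t) →
      (∑ i, ∏ j, F i j) ≠ 0 →
      (∑ i, ∏ j, F i j).roots.toFinset.card ≤ (k * m * t + 2) ^ c) :=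
  Pool.Agent.Work.MP_97f157_lc_C.not_tau

end Pool.Agent.S15088
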