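import Pool.Statements.S15307
import Pool.Agent.Work.MP_c026f4_lc.H12Red

set_option autoImplicit false
open Pool Pool.MP_c026f4_lc

namespace Pool.Agent.S15307

/-- For every word over ℕ with at least 3 distinct letters that is fixed by no morphism moving one of its letters, some letter of it can be deleted everywhere so the resulting word is also fixed by no such morphism. -/
theorem result :
    ∀ α : List ℕ, 3 ≤ α.toFinset.card →
      (¬ ∃ σ : ℕ → List ℕ, α.flatMap σ = α ∧ ∃ x ∈ α, σ x ≠ [x]) →
      ∃ i ∈ α, ¬ ∃ σ : ℕ → List ℕ,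
        (α.filter (fun y => decide (y ≠ i))).flatMap σ = α.filter (fun y => decide (y ≠ i)) ∧
        ∃ x ∈ α.filter (fun y => decide (y ≠ i)), σ x ≠ [x] := by
  intro α h3 hprim
  by_contra hh
  refine Pool.Agent.Work.MP_c026f4_lc.H12.billaud α ?_ hprim (fun i hi => ?_)
  · rintro rfl
    simp at h3
  · by_contra d
    exact hh ⟨i, hi, d⟩

end Pool.Agent.S15307
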