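import Pool.Statements.S15943
import Pool.Agent.Work.MP_096b72_nt.Final

set_option autoImplicit false
open Pool Pool.MP_096b72_nt

namespace Pool.Agent.S15943

/-- For every prime p>3 and a≥1, (1/p^a)·Σ_{k<p^a}(5k+1)C(2k,k)^2C(3k,k)/(-192)^k minus [(p^a/3) + (p^{a-1}/3)·(5/18)·p^2·B_{p-2}(1/3)] is 0 or has p-adic valuation at least 3. -/
theorem result :
    ∀ p : ℕ, p.Prime → 3 < p → ∀ a : ℕ, 1 ≤ a →
      ∀ T R : ℚ,
        T = (1 / (p : ℚ) ^ a) *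
          ∑ k ∈ Finset.range (p ^ a),
            (5 * (k : ℚ) + 1) / (-192 : ℚ) ^ k *
              (((Nat.choose (2 * k) k : ℕ) : ℚ) ^ 2 * ((Nat.choose (3 * k) k : ℕ) : ℚ)) →
        R = ((jacobiSym ((p : ℤ) ^ a) 3 : ℤ) : ℚ) +
          ((jacobiSym ((p : ℤ) ^ (a - 1)) 3 : ℤ) : ℚ) * (5 / 18 : ℚ) * (p : ℚ) ^ 2 *
            (Polynomial.bernoulli (p - 2)).eval (1 / 3 : ℚ) →
        T - R = 0 ∨ 3 ≤ padicValRat p (T - R) := by
  intro p hp h3 a ha T R hT hR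
  exact Pool.Agent.Work.MP_096b72_nt.main p hp h3 a ha T R hT hR

end Pool.Agent.S15943
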