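import Pool.Statements.S16757
import Pool.Agent.Work.MP_45c923_nt.Linear

set_option autoImplicit false
open Pool Pool.MP_45c923_nt

namespace Pool.Agent.S16757

/-- There is a constant C such that for every k ≥ 2, some m ≤ Ck works so that every sufficiently large natural number is a sum of m k-th powers of nonnegative integers; that is, G(k) = O(k). -/
theorem result :
    ∃ C : ℕ, ∀ k : ℕ, 2 ≤ k →
      ∃ m : ℕ, m ≤ C * k ∧
        ∃ n₀ : ℕ, ∀ n : ℕ, n₀ ≤ n →
          ∃ x : Fin m → ℕ, n = ∑ i, x i ^ k :=
  Pool.Agent.Work.MP_45c923_nt.waring_linear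

end Pool.Agent.S16757
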