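import Pool.Statements.S16957
import Pool.Agent.Work.MP_52820d_nt.Main

set_option autoImplicit false
open N6813fd5a
open Filter
open scoped ArithmeticFunction.sigma
open Pool Pool.MP_52820d_nt

namespace Pool.Agent.S16957

/-- Every real x > 1 is in the closure of {τ((n+⌊log n⌋₊)!)/τ(n!) : n ∈ ℕ}, with σ 0 = divisor count and natural log. -/
theorem result :
    Set.Ioi (1 : ℝ) ⊆ closure (Set.range (F fun m ↦ Real.log m)) := by
  intro x hx
  have hx1 : (1 : ℝ) < x := hx
  have hx0 : 0 < x := by linarith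
  rw [Metric.mem_closure_iff]
  intro δ hδ
  have hl := Real.log_pos hx1
  have h0 : 0 < Real.log (1 + δ / (2 * x)) := Real.log_pos (lt_add_of_pos_right _ (by positivity))
  obtain ⟨n, h1, h2⟩ := Pool.Agent.Work.MP_52820d_nt.main_step (t := Real.log x)
    (ε := min (Real.log x / 2) (Real.log (1 + δ / (2 * x)))) (lt_min (by linarith) h0)
    ((min_le_left _ _).trans_lt (by linarith))
  refine ⟨_, ⟨n, rfl⟩, ?_⟩
  rw [← Pool.Agent.Work.MP_52820d_nt.log_ratio] at h1 h2
  have hs : ∀ m : ℕ, (0 : ℝ) < σ 0 m.factorial := fun m => by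
    exact_mod_cast Nat.pos_of_ne_zero (by simp [ArithmeticFunction.sigma_eq_zero, Nat.factorial_ne_zero])
  have hF : 0 < F (fun m ↦ Real.log m) n := div_pos (hs _) (hs _)
  have h3 : x ≤ F (fun m ↦ Real.log m) n := (Real.log_le_log_iff hx0 hF).1 h1
  have h4 : F (fun m ↦ Real.log m) n ≤ x * (1 + δ / (2 * x)) := by
    rw [← Real.log_le_log_iff hF (by positivity), Real.log_mul hx0.ne' (by positivity)]
    exact h2.trans (add_le_add le_rfl (min_le_right _ _))
  have h5 : x * (1 + δ / (2 * x)) = x + δ / 2 := by field_simp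
  rw [Real.dist_eq, abs_lt]
  constructor <;> linarith

end Pool.Agent.S16957
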