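import Pool.Statements.S17451
import Pool.Agent.Work.MP_75d6d0_nt.Main

set_option autoImplicit false
open Pool Pool.MP_75d6d0_nt

namespace Pool.Agent.S17451

/-- There are infinitely many composite n such that n divides a^σ(n) − b^σ(n) for all integers a, b with ab coprime to n, where σ(n) is the sum of the divisors of n. -/
theorem result :
    Set.Infinite {n : ℕ | 1 < n ∧ ¬ n.Prime ∧
      ∀ a b : ℤ, IsCoprime (a * b) (n : ℤ) →
        (n : ℤ) ∣ a ^ (ArithmeticFunction.sigma 1 n) - b ^ (ArithmeticFunction.sigma 1 n)} := by
  exact Pool.Agent.Work.MP_75d6d0_nt.infinite_admissible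

end Pool.Agent.S17451
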