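import Pool.Statements.S19389
import Pool.Agent.Work.MP_6a50bc_pr.Final

set_option autoImplicit false
open Filter Topology MeasureTheory ProbabilityTheory Matrix
open Pool Pool.MP_6a50bc_pr

namespace Pool.Agent.S19389

/-- For every ε>0 and every n(d)≥1 with limsup n/d² ≤ (1−ε)/4, with probability tending to 1 (x_i i.i.d. N(0,I/d)) the system x_iᵀSx_i=1 has a symmetric solution and every minimal nuclear norm symmetric solution is PSD. -/
theorem result :
    ∀ ε : ℝ, 0 < ε → ∀ n : ℕ → ℕ, (∀ d, 0 < n d) →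
      (∀ δ : ℝ, 0 < δ → ∀ᶠ d : ℕ in atTop, (n d : ℝ) / (d : ℝ) ^ 2 ≤ (1 - ε) / 4 + δ) →
      Tendsto
        (fun d : ℕ =>
          (Measure.pi (fun _ : Fin (n d) =>
              Measure.pi (fun _ : Fin d => gaussianReal 0 (d : NNReal)⁻¹)))
            {x : Fin (n d) → Fin d → ℝ |
              (∃ S : Matrix (Fin d) (Fin d) ℝ, S.IsHermitian ∧
                  ∀ i, x i ⬝ᵥ (S *ᵥ x i) = 1) ∧
              ∀ S : Matrix (Fin d) (Fin d) ℝ, ∀ hS : S.IsHermitian,
                (∀ i, x i ⬝ᵥ (S *ᵥ x i) = 1) →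
                (∀ T : Matrix (Fin d) (Fin d) ℝ, ∀ hT : T.IsHermitian,
                  (∀ i, x i ⬝ᵥ (T *ᵥ x i) = 1) →
                  ∑ j, |hS.eigenvalues j| ≤ ∑ j, |hT.eigenvalues j|) →
                S.PosSemidef})
        atTop (𝓝 1) := by
  exact Pool.Agent.Work.MP_6a50bc_pr.final

end Pool.Agent.S19389
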